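import Pool.Agent.Work.MP_72ebf0_an.Primal

/-!
The dual (character side) argument for additive local rules.
-/

namespace Pool.Agent.Work.MP_72ebf0_an

open Finset

theorem dual_return {K : Type} [Fintype K] [DecidableEq K] [Zero K] [Nontrivial K] {m : ℕ}
    (good : (Fin (m + 1 + 1) → K) → Prop) [DecidablePred good] (e1 e2 : ℕ)
    (he : e1 + e2 < Fintype.card K)
    (hout : ∀ s : Fin (m + 1) → K, (univ.filter fun l => ¬ good (Fin.snoc s l)).card ≤ e1)
    (hin : ∀ s : Fin (m + 1) → K, (univ.filter fun l => ¬ good (Fin.cons l s)).card ≤ e2)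
    (hst : ∀ l, l ≠ 0 → good (Fin.snoc (fun _ => 0) l))
    (hen : ∀ l, l ≠ 0 → good (Fin.cons l (fun _ => 0))) :
    (fun _ => 0) ∈ Reach (m + 1) good 0 (· ≠ 0) := by
  classical
  by_contra hno
  set F := Reach (m + 1) good (0 : K) (· ≠ 0) with hF
  let I : (Fin m → K) → Finset K := fun c => univ.filter fun k => Fin.cons k c ∈ F
  let O : (Fin m → K) → Finset K := fun c => univ.filter fun k => Fin.snoc c k ∈ F
  have hI : ∑ c, (I c).card = ∑ s : Fin (m + 1) → K, if s ∈ F then 1 else 0 := by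
    rw [← (Fin.consEquiv fun _ => K).sum_comp, Fintype.sum_prod_type_right]
    refine sum_congr rfl fun c _ => ?_
    simp only [I, card_filter]; rfl
  have hO : ∑ c, (O c).card = ∑ s : Fin (m + 1) → K, if s ∈ F then 1 else 0 := by
    rw [← (Fin.snocEquiv fun _ => K).sum_comp, Fintype.sum_prod_type_right]
    refine sum_congr rfl fun c _ => ?_
    simp only [O, card_filter]; rfl
  have step : ∀ c k0 k, k0 ∈ I c → good (Fin.cons k0 (Fin.snoc c k)) → k ∈ O c := by
    intro c k0 k h0 hg
    simp only [I, O, mem_filter, mem_univ, true_and] at h0 ⊢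
    have := reach_step (z := (0 : K)) (st := (· ≠ 0)) _ hg (by
      rw [Fin.cons_snoc_eq_snoc_cons, Fin.init_snoc]; exact h0)
    rwa [Fin.tail_cons] at this
  have hle : ∀ c, (I c).card ≤ (O c).card := by
    intro c
    rcases (I c).eq_empty_or_nonempty with h0 | ⟨k0, h0⟩
    · simp [h0]
    by_cases hbig : e2 < (I c).card
    · have : O c = univ := by
        refine eq_univ_of_forall fun k => ?_
        by_contra hk
        have : I c ⊆ univ.filter fun l => ¬ good (Fin.cons l (Fin.snoc c k)) := fun l hl => by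
          simp only [mem_filter, mem_univ, true_and]
          exact fun hg => hk (step c l k hl hg)
        have := (card_le_card this).trans (hin _)
        omega
      rw [this]; exact card_le_univ _
    · have h1 : (O c)ᶜ ⊆ univ.filter fun l => ¬ good (Fin.snoc (Fin.cons k0 c) l) := fun l hl => by
        simp only [mem_filter, mem_univ, true_and]
        rw [← Fin.cons_snoc_eq_snoc_cons]
        exact fun hg => (mem_compl.1 hl) (step c k0 l h0 hg)
      have h2 := (card_le_card h1).trans (hout _)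
      rw [card_compl] at h2
      omega
  have hsn : Fin.snoc (α := fun _ => K) (fun _ : Fin m => (0 : K)) 0 = fun _ => 0 := by
    funext j
    rcases Fin.eq_castSucc_or_eq_last j with ⟨i, rfl⟩ | rfl <;> simp
  have hcn : Fin.cons (α := fun _ => K) 0 (fun _ : Fin m => (0 : K)) = fun _ => 0 := by
    funext j
    rcases Fin.eq_zero_or_eq_succ j with rfl | ⟨i, rfl⟩ <;> simp
  have hI0 : I (fun _ => 0) = ∅ := by
    refine eq_empty_of_forall_notMem fun k hk => ?_
    by_cases h0 : k = 0
    · subst h0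
      simp only [I, mem_filter, mem_univ, true_and, hcn] at hk
      exact hno hk
    · have := step _ k 0 hk (by rw [hsn]; exact hen k h0)
      simp only [O, mem_filter, mem_univ, true_and, hsn] at this
      exact hno this
  have hO0 : 0 < (O (fun _ => 0)).card := by
    obtain ⟨l, hl⟩ := exists_ne (0 : K)
    refine card_pos.2 ⟨l, ?_⟩
    simp only [O, mem_filter, mem_univ, true_and]
    have := reach_start (z := (0 : K)) (st := (· ≠ 0)) _ (hst l hl) (Fin.init_snoc _ _)
      (by simpa using hl)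
    rwa [← hcn, ← Fin.cons_snoc_eq_snoc_cons, Fin.tail_cons] at this
  have : ∑ c, (I c).card < ∑ c, (O c).card :=
    sum_lt_sum (fun c _ => hle c) ⟨fun _ => 0, mem_univ _, by rw [hI0]; simpa using hO0⟩
  omega

variable {p : ℕ} [hp : Fact p.Prime]

theorem bijective_of_sum_eq_zero (u : ZMod p → ZMod p)
    (h : ∑ a, ZMod.stdAddChar (u a) = 0) : Function.Bijective u := by
  classical
  have hp0 : p ≠ 0 := hp.out.ne_zero
  have : NeZero p := ⟨hp0⟩
  have hζ := Complex.isPrimitiveRoot_exp p hp0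
  set ζ := Complex.exp (2 * Real.pi * Complex.I / p)
  have hψ : ∀ i : Fin p, ZMod.stdAddChar ((i : ℕ) : ZMod p) = ζ ^ (i : ℕ) := by
    intro i
    have := ZMod.stdAddChar_coe (N := p) ((i : ℕ) : ℤ)
    rw [Int.cast_natCast] at this
    rw [this, ← Complex.exp_nat_mul]
    congr 1; push_cast; ring
  let α : Fin p → ℤ := fun i => (univ.filter fun a => u a = ((i : ℕ) : ZMod p)).card
  have hbij : Function.Bijective (fun i : Fin p => ((i : ℕ) : ZMod p)) := by
    rw [Fintype.bijective_iff_injective_and_card]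
    refine ⟨fun i j hij => ?_, by simp⟩
    have := congrArg ZMod.val hij
    simpa [ZMod.val_cast_of_lt i.2, ZMod.val_cast_of_lt j.2, Fin.ext_iff] using this
  have h1 : ∑ i, (α i : ℂ) * ζ ^ (i : ℕ) = 0 := by
    rw [← h, ← sum_fiberwise (s := univ) (g := u), ← hbij.sum_comp]
    refine sum_congr rfl fun i _ => ?_
    rw [sum_congr rfl (g := fun _ => ζ ^ (i : ℕ)) (fun a ha => by
      rw [(mem_filter.1 ha).2, hψ])]
    simp [α]
  have h2 := (hζ.sum_eq_zero_iff_forall_eq_int hp.out α).1 h1
  refine Finite.surjective_iff_bijective.1 fun v => ?_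
  obtain ⟨i, rfl⟩ := hbij.2 v
  obtain ⟨j, hj⟩ := hbij.2 (u 0)
  have h3 : 0 < α i := by
    rw [h2 i j]
    simp only [α, Nat.cast_pos]
    exact card_pos.2 ⟨0, by simpa using hj.symm⟩
  simp only [α, Nat.cast_pos] at h3
  obtain ⟨a, ha⟩ := card_pos.1 h3
  exact ⟨a, (mem_filter.1 ha).2⟩

/-- Hermite's bound. -/
theorem card_bij_le (u : ZMod p → ZMod p) {a : ZMod p} (ha : a ≠ 0) {q e : ℕ} (hq : 0 < q)
    (he0 : 0 < e) (he1 : e < p - 1) (hd : p - 1 ∣ q * e) :
    (univ.filter fun l : ZMod p => Function.Bijective fun x => u x + l * (a * x ^ q)).card ≤ e := by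
  classical
  let P : Polynomial (ZMod p) :=
    ∑ x, (Polynomial.C (a * x ^ q) * Polynomial.X + Polynomial.C (u x)) ^ e
  have hdeg : ∀ x : ZMod p,
      (Polynomial.C (a * x ^ q) * Polynomial.X + Polynomial.C (u x)).natDegree ≤ 1 :=
    fun x => Polynomial.natDegree_linear_le
  have hP : P.natDegree ≤ e := by
    refine Polynomial.natDegree_sum_le_of_forall_le _ _ fun x _ => ?_
    simpa using Polynomial.natDegree_pow_le_of_le e (hdeg x)
  have hc : P.coeff e = - a ^ e := by
    simp only [P, Polynomial.finsetSum_coeff]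
    have : ∀ x : ZMod p, ((Polynomial.C (a * x ^ q) * Polynomial.X +
        Polynomial.C (u x)) ^ e).coeff e = a ^ e * x ^ (q * e) := by
      intro x
      have := Polynomial.coeff_pow_of_natDegree_le (m := e) (hdeg x)
      rw [mul_one] at this
      rw [this, Polynomial.coeff_add, Polynomial.coeff_C_mul_X, Polynomial.coeff_C]
      simp [mul_pow, pow_mul]
    simp only [this, ← mul_sum]
    obtain ⟨c, hc⟩ := hd
    have h1 : ∑ x : ZMod p, x ^ (q * e) = ∑ x : ZMod p, (1 - if x = 0 then 1 else 0) := by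
      refine sum_congr rfl fun x _ => ?_
      split_ifs with hx
      · rw [hx, zero_pow (by positivity)]; simp
      · rw [hc, pow_mul, ZMod.pow_card_sub_one_eq_one hx]; simp
    rw [h1]; simp
  have hP0 : P ≠ 0 := fun h => by
    rw [h] at hc
    simp [ha, he0.ne'] at hc
  refine le_trans (Polynomial.card_le_degree_of_subset_roots fun l hl => ?_) hP
  simp only [mem_val, mem_filter, mem_univ, true_and] at hl
  rw [Polynomial.mem_roots hP0, Polynomial.IsRoot, Polynomial.eval_finsetSum]
  have := hl.sum_comp (fun y : ZMod p => y ^ e)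
  rw [FiniteField.sum_pow_lt_card_sub_one (K := ZMod p) e (by simpa using he1)] at this
  rw [← this]
  refine sum_congr rfl fun x _ => ?_
  simp only [Polynomial.eval_pow, Polynomial.eval_add, Polynomial.eval_mul, Polynomial.eval_C,
    Polynomial.eval_X]
  ring

omit hp in
theorem exists_e {q : ℕ} (h3 : 3 ≤ p) (hq : ¬ Nat.Coprime q (p - 1)) :
    ∃ e, 0 < e ∧ 2 * e ≤ p - 1 ∧ p - 1 ∣ q * e := by
  obtain ⟨e, he⟩ := Nat.gcd_dvd_right q (p - 1)
  obtain ⟨c, hc⟩ := Nat.gcd_dvd_left q (p - 1)
  have hd0 : 0 < Nat.gcd q (p - 1) := Nat.gcd_pos_of_pos_right _ (by omega)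
  have hd : 2 ≤ Nat.gcd q (p - 1) := by
    have : Nat.gcd q (p - 1) ≠ 1 := hq
    omega
  refine ⟨e, ?_, ?_, c, ?_⟩
  · rcases Nat.eq_zero_or_pos e with h | h
    · rw [h] at he; omega
    · exact h
  · nlinarith
  · generalize Nat.gcd q (p - 1) = d at *
    rw [he, hc]; ring

theorem not_bij_pow (c : ZMod p) {q : ℕ} (h3 : 3 ≤ p) (hq0 : 0 < q)
    (hq : ¬ Nat.Coprime q (p - 1)) : ¬ Function.Bijective fun x : ZMod p => c * x ^ q := by
  intro hb
  obtain ⟨e, he0, he1, he2⟩ := exists_e h3 hq
  have hc : c ≠ 0 := by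
    rintro rfl
    have := hb.1 (a₁ := 0) (a₂ := 1) (by simp)
    simp at this
  have h1 := hb.sum_comp (fun y : ZMod p => y ^ e)
  rw [FiniteField.sum_pow_lt_card_sub_one (K := ZMod p) e (by simp; omega)] at h1
  obtain ⟨d, hd⟩ := he2
  have h2 : ∑ x : ZMod p, (c * x ^ q) ^ e =
      ∑ x : ZMod p, c ^ e * (1 - if x = 0 then 1 else 0) := by
    refine sum_congr rfl fun x _ => ?_
    rw [mul_pow, ← pow_mul]
    split_ifs with hx
    · rw [hx, zero_pow (by positivity)]; simp
    · rw [hd, pow_mul, ZMod.pow_card_sub_one_eq_one hx]; simp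
  rw [h2, ← mul_sum] at h1
  simp [hc] at h1

theorem psi_sum {ι : Type} (s : Finset ι) (v : ι → ZMod p) :
    ZMod.stdAddChar (∑ i ∈ s, v i) = ∏ i ∈ s, ZMod.stdAddChar (v i) := by
  classical
  induction s using Finset.induction_on with
  | empty => simp
  | insert i s hi ih => rw [sum_insert hi, prod_insert hi, AddChar.map_add_eq_mul, ih]

theorem char_sum_blk {m : ℕ} {f : (Fin (m + 1) → ZMod p) → ZMod p}
    (hs : Function.Surjective (glob m f)) {n : ℕ} (k : Fin n → ZMod p) (i0 : Fin n)
    (hk : k i0 ≠ 0) : ∑ x, ZMod.stdAddChar (∑ i, k i * blk m f n x i) = 0 := by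
  classical
  have hL : 0 < n + m := by have := i0.2; omega
  rw [← sum_fiberwise (s := univ) (g := blk m f n)]
  have h1 : ∀ y : Fin n → ZMod p, ∑ x ∈ univ.filter (fun x => blk m f n x = y),
      ZMod.stdAddChar (∑ i, k i * blk m f n x i) =
      (p : ℂ) ^ m * ∏ i, ZMod.stdAddChar (k i * y i) := by
    intro y
    rw [sum_congr rfl (g := fun _ => ∏ i, ZMod.stdAddChar (k i * y i)) (fun x hx => by
      rw [(mem_filter.1 hx).2, psi_sum])]
    rw [sum_const, card_fiber hs hL]
    simp
  simp only [h1, ← mul_sum]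
  have h2 := (Finset.prod_univ_sum (fun _ : Fin n => (univ : Finset (ZMod p)))
    (fun i a => ZMod.stdAddChar (k i * a))).symm
  rw [Fintype.piFinset_univ] at h2
  rw [h2, prod_eq_zero (mem_univ i0), mul_zero]
  have := AddChar.sum_mulShift (k i0) (ZMod.isPrimitive_stdAddChar p)
  simp only [mul_comm _ (k i0), hk, if_false] at this
  simpa using this

theorem additive_not_surj (h3 : 3 ≤ p) {m : ℕ} (hm : 0 < m) (φ : Fin (m + 1) → ZMod p → ZMod p)
    (c : ZMod p) {a b : ZMod p} (ha : a ≠ 0) (hb : b ≠ 0) {q s : ℕ} (hq0 : 0 < q) (hs0 : 0 < s)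
    (hq : ¬ Nat.Coprime q (p - 1)) (hs : ¬ Nat.Coprime s (p - 1))
    (h0 : ∀ x, φ 0 x = a * x ^ q) (h1 : ∀ x, φ (Fin.last m) x = b * x ^ s) :
    ¬ Function.Surjective (glob m fun w => c + ∑ j, φ j (w j)) := by
  classical
  intro hsur
  obtain ⟨m, rfl⟩ : ∃ k, m = k + 1 := ⟨m - 1, by omega⟩
  obtain ⟨e1, e10, e11, e12⟩ := exists_e h3 hq
  obtain ⟨e2, e20, e21, e22⟩ := exists_e h3 hs
  let good : (Fin (m + 1 + 1) → ZMod p) → Prop := fun ξ =>
    ¬ Function.Bijective fun x => ∑ j, ξ j * φ j.rev x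
  have key := dual_return (m := m) good e1 e2 (by simp; omega) (fun t => ?_) (fun t => ?_)
    (fun l hl => ?_) (fun l hl => ?_)
  rotate_left
  · refine le_trans (le_of_eq ?_) (card_bij_le (fun x => ∑ j : Fin (m + 1),
      t j * φ j.castSucc.rev x) ha hq0 e10 (by omega) e12)
    congr 1
    ext l
    simp [good, Fin.sum_univ_castSucc (n := m + 1), h0]
  · refine le_trans (le_of_eq ?_) (card_bij_le (fun x => ∑ j : Fin (m + 1),
      t j * φ j.succ.rev x) hb hs0 e20 (by omega) e22)
    congr 1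
    ext l
    simp [good, Fin.sum_univ_succ (n := m + 1), h1, add_comm]
  · have := not_bij_pow (l * a) h3 hq0 hq
    simpa [good, Fin.sum_univ_castSucc (n := m + 1), h0, mul_assoc] using this
  · have := not_bij_pow (l * b) h3 hs0 hs
    simpa [good, Fin.sum_univ_succ (n := m + 1), h1, mul_assoc] using this
  obtain ⟨n, hn, k, k1, k2, k3, k4⟩ := key
  have k5 : ∀ i, n ≤ i → i < n + (m + 1) → k i = 0 := fun i hi hi' => by
    have := congrFun k4 ⟨i - n, by omega⟩
    simp only [Nat.add_sub_cancel' hi] at this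
    exact this.symm
  have hMn : m + 1 < n := by
    by_contra hh
    exact k2 (k5 (m + 1) (by omega) (by omega))
  have hsum := char_sum_blk hsur (fun i : Fin n => k i) ⟨m + 1, hMn⟩ k2
  let u : ℕ → ZMod p → ZMod p := fun t x =>
    ∑ j : Fin (m + 1 + 1), (if (j : ℕ) ≤ t then k (t - j) else 0) * φ j x
  have hre : ∀ x : Fin (n + (m + 1)) → ZMod p,
      ∑ i : Fin n, k i * blk (m + 1) (fun w => c + ∑ j, φ j (w j)) n x i =
      (∑ i : Fin n, k i * c) + ∑ t : Fin (n + (m + 1)), u t (x t) := by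
    intro x
    simp only [blk, mul_add, sum_add_distrib, mul_sum, u]
    congr 1
    rw [sum_comm, sum_comm (s := (univ : Finset (Fin (n + (m + 1)))))]
    refine sum_congr rfl fun j _ => ?_
    have hj := j.2
    symm
    rw [← sum_subset (s₁ := univ.filter fun t : Fin (n + (m + 1)) => (j : ℕ) ≤ t ∧ (t : ℕ) - j < n)
      (subset_univ _)]
    · symm
      refine sum_bij (fun i _ => ⟨i + j, by omega⟩) (fun i _ => ?_) (fun i _ i' _ h => ?_)
        (fun t ht => ?_) (fun i _ => ?_)
      · simp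
      · simpa [Fin.ext_iff] using h
      · simp only [mem_filter, mem_univ, true_and] at ht
        exact ⟨⟨t - j, ht.2⟩, mem_univ _, by ext; simp; omega⟩
      · simp
    · intro t _ ht
      simp only [mem_filter, mem_univ, true_and, not_and, not_lt] at ht
      have := t.2
      split_ifs with hjt
      · rw [k5 _ (ht hjt) (by omega), zero_mul]
      · simp
  simp only [hre] at hsum
  simp only [AddChar.map_add_eq_mul, ← mul_sum, psi_sum] at hsum
  have h2 := (Finset.prod_univ_sum (fun _ : Fin (n + (m + 1)) => (univ : Finset (ZMod p)))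
    (fun t a => ZMod.stdAddChar (u t a))).symm
  rw [Fintype.piFinset_univ] at h2
  rw [h2, mul_eq_zero] at hsum
  rcases hsum with hsum | hsum
  · obtain ⟨i, -, hi⟩ := prod_eq_zero_iff.1 hsum
    exact (Circle.coe_ne_zero _) hi
  obtain ⟨t, -, ht⟩ := prod_eq_zero_iff.1 hsum
  have hb := bijective_of_sum_eq_zero _ ht
  have ht2 := t.2
  by_cases htM : (t : ℕ) < m + 1
  · have hu : ∀ x, u t x = 0 := fun x => sum_eq_zero fun j _ => by
      split_ifs
      · rw [k1 _ (by omega), zero_mul]
      · simp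
    have := hb.1 (a₁ := 0) (a₂ := 1) (by rw [hu, hu])
    simp at this
  · refine k3 (t - (m + 1)) (by omega) ?_
    convert hb using 2 with x
    simp only [u]
    rw [← Equiv.sum_comp Fin.revPerm]
    refine sum_congr rfl fun j _ => ?_
    have hj := j.2
    simp only [Fin.revPerm_apply, Fin.rev_rev, Fin.val_rev]
    rw [if_pos (by omega)]
    congr 2
    omega

end Pool.Agent.Work.MP_72ebf0_an
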