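import Pool.Agent.Work.MP_72ebf0_an.HallTwo

/-!
Hall's condition for large primes.
-/

namespace Pool.Agent.Work.MP_72ebf0_an

open Finset

variable {p : ℕ} [hp : Fact p.Prime]

/-- exponential sum -/
noncomputable def es (s : Finset (ZMod p)) (g : ZMod p → ZMod p) (k : ZMod p) : ℂ :=
  ∑ x ∈ s, ZMod.stdAddChar (k * g x)

theorem orth (t : ZMod p) : ∑ k : ZMod p, ZMod.stdAddChar (k * t) = if t = 0 then (p : ℂ) else 0 := by
  have := AddChar.sum_mulShift t (ZMod.isPrimitive_stdAddChar p)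
  rw [this, ZMod.card]
  split_ifs <;> simp

theorem es_sq (s : Finset (ZMod p)) (g : ZMod p → ZMod p) (k : ZMod p) :
    ((‖es s g k‖ ^ 2 : ℝ) : ℂ) = ∑ l ∈ s ×ˢ s, ZMod.stdAddChar (k * (g l.1 - g l.2)) := by
  rw [Complex.ofReal_pow, ← Complex.mul_conj', es, map_sum, sum_mul_sum, sum_product]
  refine sum_congr rfl fun x _ => sum_congr rfl fun y _ => ?_
  rw [← AddChar.map_neg_eq_conj, ← AddChar.map_add_eq_mul]
  congr 1; ring

theorem parseval (s : Finset (ZMod p)) (g : ZMod p → ZMod p) :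
    ∑ k, ‖es s g k‖ ^ 2 = p * ((s ×ˢ s).filter fun l => g l.1 = g l.2).card := by
  apply Complex.ofReal_injective
  rw [Complex.ofReal_sum]
  simp only [es_sq]
  rw [sum_comm]
  simp only [orth, sub_eq_zero]
  rw [← sum_filter]
  simp [mul_comm]

theorem mixing (g : ZMod p → ZMod p) (A : Finset (ZMod p)) (B : ℝ)
    (hB : ∀ k, k ≠ 0 → ‖es A (fun t => -t) k‖ ≤ B) :
    |((univ.filter fun l : ZMod p × ZMod p => g l.1 - g l.2 ∈ A).card : ℝ) - p * A.card| ≤
      B * ((univ.filter fun l : ZMod p × ZMod p => g l.1 = g l.2).card - p) := by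
  classical
  have hp0 : (0 : ℝ) < p := by exact_mod_cast hp.out.pos
  have h1 : (p : ℂ) * (univ.filter fun l : ZMod p × ZMod p => g l.1 - g l.2 ∈ A).card =
      ∑ k, es A (fun t => -t) k * ((‖es univ g k‖ ^ 2 : ℝ) : ℂ) := by
    simp only [es_sq]
    simp only [es, sum_mul_sum, ← AddChar.map_add_eq_mul, ← mul_add]
    rw [sum_comm]
    have : ∀ t ∈ A, ∑ k : ZMod p, ∑ l ∈ univ ×ˢ univ, ZMod.stdAddChar (k * (-t + (g l.1 - g l.2))) =
        ∑ l : ZMod p × ZMod p, if g l.1 - g l.2 = t then (p : ℂ) else 0 := by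
      intro t _
      rw [sum_comm, univ_product_univ]
      refine sum_congr rfl fun l _ => ?_
      rw [orth]
      exact if_congr (by rw [neg_add_eq_zero, eq_comm]) rfl rfl
    rw [sum_congr rfl this, sum_comm]
    simp only [sum_ite_eq]
    rw [← sum_filter]
    simp [mul_comm]
  have h2 := parseval (p := p) univ g
  rw [univ_product_univ] at h2
  rw [← add_sum_erase _ _ (mem_univ 0)] at h1 h2
  have e1 : es A (fun t => -t) 0 = A.card := by simp [es]
  have e2 : ‖es univ g 0‖ = p := by simp [es]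
  rw [e1, e2] at h1
  rw [e2] at h2
  have h3 : ‖∑ k ∈ univ.erase 0, es A (fun t => -t) k * ((‖es univ g k‖ ^ 2 : ℝ) : ℂ)‖ ≤
      B * ∑ k ∈ univ.erase 0, ‖es univ g k‖ ^ 2 := by
    rw [mul_sum]
    refine (norm_sum_le _ _).trans (sum_le_sum fun k hk => ?_)
    rw [norm_mul, Complex.norm_real, Real.norm_of_nonneg (by positivity)]
    exact mul_le_mul_of_nonneg_right (hB k (ne_of_mem_erase hk)) (by positivity)
  replace h2 := h2.symm
  rw [← sub_eq_iff_eq_add'] at h1 h2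
  rw [← h1, ← h2] at h3
  have h4 : (p : ℂ) * (univ.filter fun l : ZMod p × ZMod p => g l.1 - g l.2 ∈ A).card -
      (A.card : ℂ) * (((p : ℝ) ^ 2 : ℝ) : ℂ) =
      ((p * (((univ.filter fun l : ZMod p × ZMod p => g l.1 - g l.2 ∈ A).card : ℝ) -
        p * A.card) : ℝ) : ℂ) := by
    push_cast; ring
  rw [h4, Complex.norm_real, Real.norm_eq_abs, abs_mul, abs_of_pos hp0] at h3
  refine le_of_mul_le_mul_left (h3.trans_eq ?_) hp0
  ring

theorem card_pow_fiber {q : ℕ} (hq : 0 < q) (c : ZMod p) :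
    (univ.filter fun x : ZMod p => x ^ q = c).card ≤ Nat.gcd q (p - 1) := by
  classical
  have hd : 0 < Nat.gcd q (p - 1) := Nat.gcd_pos_of_pos_left _ hq
  rcases (univ.filter fun x : ZMod p => x ^ q = c).eq_empty_or_nonempty with h | ⟨y, hy⟩
  · simp [h]
  have hy' : y ^ q = c := (mem_filter.1 hy).2
  refine le_trans (card_le_card (t := (Polynomial.nthRoots (Nat.gcd q (p - 1))
    (y ^ Nat.gcd q (p - 1))).toFinset) fun x hx => ?_)
    ((Multiset.toFinset_card_le _).trans (Polynomial.card_nthRoots _ _))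
  rw [Multiset.mem_toFinset, Polynomial.mem_nthRoots hd, ← pow_eq_pow_iff_gcd hq, hy']
  exact (mem_filter.1 hx).2

theorem card_diag_le {q : ℕ} (hq : 0 < q) {a : ZMod p} (ha : a ≠ 0) :
    (univ.filter fun l : ZMod p × ZMod p => a * l.1 ^ q = a * l.2 ^ q).card ≤
      1 + Nat.gcd q (p - 1) * (p - 1) := by
  classical
  rw [card_eq_sum_card_fiberwise (f := Prod.snd) (t := univ) (fun _ _ => mem_univ _),
    ← add_sum_erase _ _ (mem_univ 0)]
  refine Nat.add_le_add ?_ ?_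
  · rw [card_le_one]
    rintro ⟨x, y⟩ h ⟨x', y'⟩ h'
    simp only [mem_filter, mem_univ, true_and] at h h'
    obtain ⟨h1, rfl⟩ := h
    obtain ⟨h2, rfl⟩ := h'
    rw [mul_right_inj' ha, zero_pow hq.ne', pow_eq_zero_iff hq.ne'] at h1 h2
    rw [h1, h2]
  · refine (sum_le_card_nsmul _ _ (Nat.gcd q (p - 1)) fun y _ => ?_).trans ?_
    · refine le_trans (card_le_card_of_injOn Prod.fst (fun l hl => ?_) ?_) (card_pow_fiber hq (y ^ q))
      · simp only [coe_filter, mem_filter, mem_univ, true_and, Set.mem_ofPred_eq] at hl ⊢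
        rw [← hl.2]; exact mul_left_cancel₀ ha hl.1
      · intro l hl l' hl' h
        simp only [coe_filter, mem_filter, mem_univ, true_and, Set.mem_ofPred_eq] at hl hl'
        exact Prod.ext h (hl.2.trans hl'.2.symm)
    · rw [card_erase_of_mem (mem_univ _), card_univ, ZMod.card, smul_eq_mul, mul_comm]

theorem es_inv_bound {q : ℕ} (hq : 0 < q) (A : Finset (ZMod p))
    (hinv : ∀ t ∈ A, ∀ u : ZMod p, u ≠ 0 → t * u ^ q ∈ A) (k : ZMod p) (hk : k ≠ 0) :
    (p - 1 : ℝ) * ‖es A (fun t => -t) k‖ ^ 2 ≤ Nat.gcd q (p - 1) * (p ^ 2 / 4) := by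
  classical
  have h1 : ∀ u : ZMod p, u ≠ 0 → es A (fun t => -t) (k * u ^ q) = es A (fun t => -t) k := by
    intro u hu
    refine sum_bij (fun t _ => t * u ^ q) (fun t ht => hinv t ht u hu)
      (fun t _ t' _ h => mul_right_cancel₀ (pow_ne_zero _ hu) h) (fun t ht => ?_) (fun t _ => ?_)
    · exact ⟨t * u⁻¹ ^ q, hinv t ht _ (inv_ne_zero hu), by
        rw [mul_assoc, ← mul_pow, inv_mul_cancel₀ hu, one_pow, mul_one]⟩
    · congr 1; ring
  have h2 : ∑ u ∈ univ.erase (0 : ZMod p), ‖es A (fun t => -t) (k * u ^ q)‖ ^ 2 =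
      (p - 1 : ℝ) * ‖es A (fun t => -t) k‖ ^ 2 := by
    rw [sum_congr rfl fun u hu => by rw [h1 u (ne_of_mem_erase hu)], sum_const,
      card_erase_of_mem (mem_univ _), card_univ, ZMod.card, nsmul_eq_mul,
      Nat.cast_sub hp.out.one_le, Nat.cast_one]
  have h3 := parseval A (fun t => -t)
  have h4 : ((A ×ˢ A).filter fun l : ZMod p × ZMod p => -l.1 = -l.2).card = A.card := by
    refine card_bij (fun l _ => l.1) (fun l hl => (mem_product.1 (mem_filter.1 hl).1).1) ?_ ?_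
    · intro l hl l' hl' h
      have e1 := neg_injective (mem_filter.1 hl).2
      have e2 := neg_injective (mem_filter.1 hl').2
      exact Prod.ext h (by rw [← e1, ← e2]; exact h)
    · exact fun t ht => ⟨(t, t), by simp [ht], rfl⟩
  rw [h4, ← add_sum_erase _ _ (mem_univ 0)] at h3
  have e1 : ‖es A (fun t => -t) 0‖ = A.card := by simp [es]
  rw [e1] at h3
  rw [← h2, ← sum_fiberwise_of_maps_to (g := fun u => k * u ^ q) (t := univ.erase 0)
    (fun u hu => by simp [hk, ne_of_mem_erase hu])]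
  calc _ ≤ ∑ j ∈ univ.erase (0 : ZMod p), (Nat.gcd q (p - 1) : ℝ) * ‖es A (fun t => -t) j‖ ^ 2 := by
        refine sum_le_sum fun j _ => ?_
        rw [sum_congr rfl (g := fun _ => ‖es A (fun t => -t) j‖ ^ 2)
          (fun u hu => by rw [(mem_filter.1 hu).2]), sum_const, nsmul_eq_mul]
        refine mul_le_mul_of_nonneg_right ?_ (by positivity)
        refine Nat.cast_le.2 (le_trans (card_le_card fun u hu => ?_) (card_pow_fiber hq (k⁻¹ * j)))
        simp only [mem_filter, mem_univ, true_and] at hu ⊢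
        rw [← hu.2, inv_mul_cancel_left₀ hk]
    _ ≤ _ := by
        rw [← mul_sum]
        refine mul_le_mul_of_nonneg_left ?_ (by positivity)
        nlinarith [sq_nonneg ((p : ℝ) / 2 - A.card)]

theorem count_bound {q : ℕ} (hq : 0 < q) {a : ZMod p} (ha : a ≠ 0) (A : Finset (ZMod p))
    (hinv : ∀ t ∈ A, ∀ u : ZMod p, u ≠ 0 → t * u ^ q ∈ A) :
    |((univ.filter fun l : ZMod p × ZMod p => a * l.1 ^ q - a * l.2 ^ q ∈ A).card : ℝ) -
      p * A.card| ≤ p / 2 * Real.sqrt ((Nat.gcd q (p - 1) : ℝ) ^ 3 * (p - 1)) := by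
  have hP : (0 : ℝ) < p - 1 := by
    have : (1 : ℝ) < p := by exact_mod_cast hp.out.one_lt
    linarith
  set d : ℝ := (Nat.gcd q (p - 1) : ℝ) with hd
  have hd0 : 0 ≤ d := by positivity
  have h1 := mixing (fun x => a * x ^ q) A (p / 2 * Real.sqrt (d / (p - 1))) fun k hk => by
    have := es_inv_bound hq A hinv k hk
    refine le_of_sq_le_sq ?_ (by positivity)
    rw [mul_pow, Real.sq_sqrt (by positivity)]
    rw [← hd] at this
    calc _ ≤ d * (p ^ 2 / 4) / (p - 1) := by rw [le_div_iff₀ hP]; linarith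
      _ = _ := by ring
  refine h1.trans ?_
  rw [mul_assoc]
  refine mul_le_mul_of_nonneg_left ?_ (by positivity)
  have h2 : ((univ.filter fun l : ZMod p × ZMod p => a * l.1 ^ q = a * l.2 ^ q).card : ℝ) ≤
      1 + d * (p - 1) := by
    have := (Nat.cast_le (α := ℝ)).2 (card_diag_le hq ha)
    rwa [Nat.cast_add, Nat.cast_mul, Nat.cast_sub hp.out.one_le, Nat.cast_one] at this
  calc _ ≤ Real.sqrt (d / (p - 1)) * (d * (p - 1)) :=
        mul_le_mul_of_nonneg_left (by linarith) (by positivity)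
    _ = _ := by
        rw [← Real.sqrt_sq (x := d * (p - 1)) (by positivity), ← Real.sqrt_mul (by positivity)]
        congr 1; field_simp

theorem hall_large {a b : ZMod p} (ha : a ≠ 0) (hb : b ≠ 0) {q s : ℕ} (hq : 0 < q) (hs : 0 < s)
    (h1 : 2 ≤ Nat.gcd s (p - 1))
    (hbig : Nat.lcm (Nat.gcd q (p - 1)) (Nat.gcd s (p - 1)) ^ 2 *
      (Nat.gcd q (p - 1) ^ 3 + Nat.gcd s (p - 1) ^ 3) < p)
    (A : Finset (ZMod p)) (h0 : 0 ∉ A) (hinv : ∀ t ∈ A, ∀ u : ZMod p, u ≠ 0 → t * u ^ q ∈ A) :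
    A.card ≤ (nb a b q s A).card := by
  classical
  by_contra hlt
  push Not at hlt
  set N := nb a b q s A with hN
  have c1 := count_bound hq ha A hinv
  have c2 := count_bound hs hb N (nb_inv a b q s A)
  have c3 := card_diag_le hs hb
  have c4 : (univ.filter fun l : ZMod p × ZMod p => a * l.1 ^ q - a * l.2 ^ q ∈ A).card ≤
      (univ.filter fun l : ZMod p × ZMod p => b * l.1 ^ s = b * l.2 ^ s).card +
      (univ.filter fun l : ZMod p × ZMod p => b * l.1 ^ s - b * l.2 ^ s ∈ N).card := by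
    refine le_trans (card_le_card fun l hl => ?_) (card_union_le _ _)
    simp only [mem_filter, mem_univ, true_and, mem_union, hN, nb] at hl ⊢
    by_cases h : b * l.1 ^ s = b * l.2 ^ s
    · exact Or.inl h
    · exact Or.inr ⟨sub_ne_zero.2 h, _, hl, l, 1, one_ne_zero, rfl, by simp⟩
  have g1 := dvd_card A h0 hinv
  have g2 := dvd_card N (by simp [hN, nb]) (nb_inv a b q s A)
  set d1 := Nat.gcd q (p - 1)
  set d2 := Nat.gcd s (p - 1)
  have hd1 : 0 < d1 := Nat.gcd_pos_of_pos_left _ hq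
  have hD : 0 < Nat.lcm d1 d2 := Nat.lcm_pos hd1 (by omega)
  have hD2 : d2 ≤ Nat.lcm d1 d2 := Nat.le_of_dvd hD (Nat.dvd_lcm_right _ _)
  have g3 : p - 1 ≤ Nat.lcm d1 d2 * (A.card - N.card) := by
    refine Nat.le_of_dvd (Nat.mul_pos hD (by omega)) ?_
    rw [Nat.mul_sub]
    exact Nat.dvd_sub (g1.trans (Nat.mul_dvd_mul_right (Nat.dvd_lcm_left _ _) _))
      (g2.trans (Nat.mul_dvd_mul_right (Nat.dvd_lcm_right _ _) _))
  set D := Nat.lcm d1 d2
  have hp1 := hp.out.one_le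
  have r3 : ((univ.filter fun l : ZMod p × ZMod p => b * l.1 ^ s = b * l.2 ^ s).card : ℝ) ≤
      1 + d2 * (p - 1) := by
    have := (Nat.cast_le (α := ℝ)).2 c3
    rwa [Nat.cast_add, Nat.cast_mul, Nat.cast_sub hp1, Nat.cast_one] at this
  have r4 := (Nat.cast_le (α := ℝ)).2 c4
  rw [Nat.cast_add] at r4
  have r5 : (p : ℝ) - 1 ≤ D * (A.card - N.card) := by
    have := (Nat.cast_le (α := ℝ)).2 g3
    rwa [Nat.cast_sub hp1, Nat.cast_mul, Nat.cast_sub hlt.le, Nat.cast_one] at this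
  have r6 : (D : ℝ) ^ 2 * (d1 ^ 3 + d2 ^ 3) ≤ p - 1 := by
    have : D ^ 2 * (d1 ^ 3 + d2 ^ 3) + 1 ≤ p := hbig
    have := (Nat.cast_le (α := ℝ)).2 this
    push_cast at this
    linarith
  have r7 : (2 : ℝ) ≤ d2 := by exact_mod_cast h1
  have r8 : (d2 : ℝ) ≤ D := by exact_mod_cast hD2
  have r9 : (0 : ℝ) ≤ d1 := by positivity
  set P : ℝ := p - 1 with hP
  have hp' : (p : ℝ) = P + 1 := by rw [hP]; ring
  set x := Real.sqrt ((d1 : ℝ) ^ 3 * P)
  set y := Real.sqrt ((d2 : ℝ) ^ 3 * P)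
  have hP0 : 0 < P := lt_of_lt_of_le (by positivity) r6
  have hx : x ^ 2 = d1 ^ 3 * P := Real.sq_sqrt (by positivity)
  have hy : y ^ 2 = d2 ^ 3 * P := Real.sq_sqrt (by positivity)
  have k1 : (p : ℝ) * (A.card - N.card) ≤ p / 2 * (x + y) + d2 * p := by
    have t1 := (abs_le.1 c1).1
    have t2 := (abs_le.1 c2).2
    have t3 : (d2 : ℝ) * P = d2 * p - d2 := by rw [hP]; ring
    linarith only [t1, t2, t3, r3, r4, r7]
  have k2 : (A.card : ℝ) - N.card ≤ (x + y) / 2 + d2 := by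
    have hp0 : (0 : ℝ) < p := by linarith
    refine le_of_mul_le_mul_left (k1.trans_eq (by ring)) hp0
  have k3 : D * (x + y) ≤ 3 / 2 * P := by
    refine le_of_sq_le_sq ?_ (by positivity)
    have : (x + y) ^ 2 ≤ 2 * ((d1 ^ 3 + d2 ^ 3) * P) := by
      linarith only [sq_nonneg (x - y), hx, hy]
    calc (D * (x + y)) ^ 2 = D ^ 2 * (x + y) ^ 2 := by ring
      _ ≤ D ^ 2 * (2 * ((d1 ^ 3 + d2 ^ 3) * P)) := by gcongr
      _ = 2 * P * (D ^ 2 * (d1 ^ 3 + d2 ^ 3)) := by ring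
      _ ≤ 2 * P * P := by gcongr
      _ ≤ _ := by linarith only [sq_nonneg P]
  have k4 : 8 * (D * d2 : ℝ) ≤ P := by
    have e1 : (8 : ℝ) ≤ D * d2 ^ 2 := by
      have t1 : (2 : ℝ) ^ 2 ≤ d2 ^ 2 := pow_le_pow_left₀ (by norm_num) r7 2
      have t2 : (2 : ℝ) * 2 ^ 2 ≤ D * d2 ^ 2 :=
        mul_le_mul (r7.trans r8) t1 (by norm_num) (Nat.cast_nonneg _)
      linarith only [t2]
    calc 8 * (D * d2 : ℝ) ≤ D * d2 ^ 2 * (D * d2) := by gcongr
      _ = D ^ 2 * d2 ^ 3 := by ring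
      _ ≤ D ^ 2 * (d1 ^ 3 + d2 ^ 3) := by gcongr; linarith [pow_nonneg r9 3]
      _ ≤ P := r6
  have k5 : (D : ℝ) * (A.card - N.card) ≤ D * ((x + y) / 2 + d2) := by gcongr
  linarith only [k3, k4, k5, r5, hP0]

end Pool.Agent.Work.MP_72ebf0_an
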