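import Pool.Agent.Work.MP_72ebf0_an.Dual

-- merged part: Pool.Agent.Work.MP_72ebf0_an.Weights
section
/-!
Construction of weights with uniform marginals from matchings.
-/

namespace Pool.Agent.Work.MP_72ebf0_an

open Finset

variable {p : ℕ} [hp : Fact p.Prime]

theorem dvd_card {q : ℕ} (A : Finset (ZMod p)) (h0 : 0 ∉ A)
    (hinv : ∀ t ∈ A, ∀ u : ZMod p, u ≠ 0 → t * u ^ q ∈ A) :
    p - 1 ∣ Nat.gcd q (p - 1) * A.card := by
  classical
  let H := (powMonoidHom q : (ZMod p)ˣ →* (ZMod p)ˣ).range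
  let S : Set (ZMod p)ˣ := {x | (x : ZMod p) ∈ A}
  have h1 : Nat.card S = A.card := by
    rw [← Nat.card_eq_finsetCard]
    refine Nat.card_congr (Equiv.ofBijective (fun x => ⟨(x.1 : ZMod p), x.2⟩) ⟨?_, ?_⟩)
    · intro x y h
      exact Subtype.ext (Units.ext (congrArg Subtype.val h))
    · rintro ⟨a, ha⟩
      exact ⟨⟨Units.mk0 a (fun h => h0 (h ▸ ha)), ha⟩, rfl⟩
  have h2 : S = (QuotientGroup.mk (s := H)) ⁻¹' ((QuotientGroup.mk (s := H)) '' S) := by
    ext x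
    refine ⟨fun hx => ⟨x, hx, rfl⟩, ?_⟩
    rintro ⟨y, hy, hxy⟩
    obtain ⟨u, hu⟩ := QuotientGroup.eq.1 hxy
    have : x = y * u ^ q := by
      have : u ^ q = y⁻¹ * x := hu
      rw [this]; simp
    rw [this]
    simpa [S] using hinv _ hy u u.ne_zero
  have h3 : Nat.card H ∣ A.card := by
    rw [← h1, h2, QuotientGroup.card_preimage_mk]
    exact Dvd.intro _ rfl
  have h4 := H.index_mul_card
  rw [IsCyclic.index_powMonoidHom_range, Nat.card_eq_fintype_card (α := (ZMod p)ˣ),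
    ZMod.card_units] at h4
  rw [Nat.gcd_comm]
  calc p - 1 = (p - 1).gcd q * Nat.card H := h4.symm
    _ ∣ _ := Nat.mul_dvd_mul_left _ h3

theorem sum_orbit (q : ℕ) (τ : ZMod p) :
    ∑ t : ZMod p, ∑ u : ZMod p, (if u ≠ 0 ∧ u ^ q * t = τ then (1 : ℝ) else 0) = p - 1 := by
  classical
  rw [sum_comm]
  have : ∀ u : ZMod p, ∑ t : ZMod p, (if u ≠ 0 ∧ u ^ q * t = τ then (1 : ℝ) else 0) =
      1 - if u = 0 then 1 else 0 := by
    intro u
    by_cases hu : u = 0
    · simp [hu]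
    · have : ∀ t, (u ≠ 0 ∧ u ^ q * t = τ) ↔ t = (u ^ q)⁻¹ * τ := fun t => by
        rw [eq_inv_mul_iff_mul_eq₀ (pow_ne_zero _ hu)]; simp [hu]
      simp only [this]
      simp [hu]
  simp [this]

/-- weights from a matching -/
theorem exists_weight (a b : ZMod p) (q s : ℕ) (ℓ : ZMod p → ZMod p × ZMod p)
    (σ : ZMod p → ZMod p) (hσ : Function.Injective σ)
    (h1 : ∀ t, a * (ℓ t).1 ^ q - a * (ℓ t).2 ^ q = t)
    (h2 : ∀ t, ∃ v : ZMod p, v ≠ 0 ∧ b * (ℓ t).1 ^ s - b * (ℓ t).2 ^ s = σ t * v ^ s) :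
    ∃ ρ : ZMod p × ZMod p → ℝ, (∀ l, 0 ≤ ρ l) ∧ (∀ t, 0 < ρ (ℓ t)) ∧
      (∀ τ, ∑ l : ZMod p × ZMod p, (if a * l.1 ^ q - a * l.2 ^ q = τ then ρ l else 0) = p - 1) ∧
      (∀ τ, ∑ l : ZMod p × ZMod p, (if b * l.1 ^ s - b * l.2 ^ s = τ then ρ l else 0) = p - 1) := by
  classical
  let ρ : ZMod p × ZMod p → ℝ := fun l => ∑ t : ZMod p, ∑ u : ZMod p,
    if u ≠ 0 ∧ l = (u * (ℓ t).1, u * (ℓ t).2) then 1 else 0
  have gen : ∀ (P : ZMod p × ZMod p → Prop) [DecidablePred P],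
      ∑ l, (if P l then ρ l else 0) = ∑ t : ZMod p, ∑ u : ZMod p,
        if u ≠ 0 ∧ P (u * (ℓ t).1, u * (ℓ t).2) then (1 : ℝ) else 0 := by
    intro P _
    have : ∀ l, (if P l then ρ l else 0) = ∑ t : ZMod p, ∑ u : ZMod p,
        if l = (u * (ℓ t).1, u * (ℓ t).2) then (if u ≠ 0 ∧ P l then (1 : ℝ) else 0) else 0 := by
      intro l
      split_ifs with h
      · refine sum_congr rfl fun t _ => sum_congr rfl fun u _ => ?_
        by_cases h2 : l = (u * (ℓ t).1, u * (ℓ t).2)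
        · rw [if_pos h2]
          exact if_congr (and_congr_right fun _ => ⟨fun _ => h, fun _ => h2⟩) rfl rfl
        · rw [if_neg h2, if_neg (fun hh => h2 hh.2)]
      · simp [h]
    simp only [this]
    rw [sum_comm]
    refine sum_congr rfl fun t _ => ?_
    rw [sum_comm]
    refine sum_congr rfl fun u _ => ?_
    simp
  refine ⟨ρ, fun l => sum_nonneg fun _ _ => sum_nonneg fun _ _ => by positivity, fun t => ?_,
    fun τ => ?_, fun τ => ?_⟩
  · refine sum_pos' (fun _ _ => sum_nonneg fun _ _ => by positivity) ⟨t, mem_univ _, ?_⟩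
    refine sum_pos' (fun _ _ => by positivity) ⟨1, mem_univ _, by simp⟩
  · rw [gen, ← sum_orbit q τ]
    refine sum_congr rfl fun t _ => sum_congr rfl fun u _ => if_congr ?_ rfl rfl
    have : a * (u * (ℓ t).1) ^ q - a * (u * (ℓ t).2) ^ q = u ^ q * t := by
      rw [mul_pow, mul_pow]; linear_combination u ^ q * h1 t
    simp only [this]
  · rw [gen, ← sum_orbit s τ, ← (Finite.injective_iff_bijective.1 hσ).sum_comp
      (fun t => ∑ u : ZMod p, (if u ≠ 0 ∧ u ^ s * t = τ then (1 : ℝ) else 0))]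
    refine sum_congr rfl fun t _ => ?_
    obtain ⟨v, hv, hv'⟩ := h2 t
    rw [← Equiv.sum_comp (Equiv.mulRight₀ v hv)
      (fun u => (if u ≠ 0 ∧ u ^ s * σ t = τ then (1 : ℝ) else 0))]
    refine sum_congr rfl fun u _ => if_congr ?_ rfl rfl
    have : b * (u * (ℓ t).1) ^ s - b * (u * (ℓ t).2) ^ s = (u * v) ^ s * σ t := by
      rw [mul_pow, mul_pow, mul_pow]; linear_combination u ^ s * hv'
    simp [this, hv]

/-- the relation between values of the two differences -/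
def rel (a b : ZMod p) (q s : ℕ) (t t' : ZMod p) : Prop :=
  ∃ l : ZMod p × ZMod p, ∃ v : ZMod p, v ≠ 0 ∧ a * l.1 ^ q - a * l.2 ^ q = t ∧
    b * l.1 ^ s - b * l.2 ^ s = t' * v ^ s

open Classical in
/-- nonzero neighbours -/
noncomputable def nb (a b : ZMod p) (q s : ℕ) (A : Finset (ZMod p)) : Finset (ZMod p) :=
  univ.filter fun t' => t' ≠ 0 ∧ ∃ t ∈ A, rel a b q s t t'

theorem nb_inv (a b : ZMod p) (q s : ℕ) (A : Finset (ZMod p)) :
    ∀ t ∈ nb a b q s A, ∀ u : ZMod p, u ≠ 0 → t * u ^ s ∈ nb a b q s A := by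
  intro t ht u hu
  simp only [nb, mem_filter, mem_univ, true_and] at ht ⊢
  obtain ⟨h0, t0, h1, l, v, hv, h2, h3⟩ := ht
  refine ⟨mul_ne_zero h0 (pow_ne_zero _ hu), t0, h1, l, v * u⁻¹, by simp [hv, hu], h2, ?_⟩
  rw [h3, mul_pow, inv_pow]; field_simp

/-- saturation -/
theorem exists_sat (a b : ZMod p) (q s : ℕ) (A : Finset (ZMod p)) (h0 : 0 ∉ A) :
    ∃ B : Finset (ZMod p), A ⊆ B ∧ 0 ∉ B ∧ (∀ t ∈ B, ∀ u : ZMod p, u ≠ 0 → t * u ^ q ∈ B) ∧
      nb a b q s B = nb a b q s A ∧ (B.Nonempty → A.Nonempty) := by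
  classical
  refine ⟨univ.filter fun t => ∃ t0 ∈ A, ∃ u : ZMod p, u ≠ 0 ∧ t = t0 * u ^ q, fun t ht => ?_,
    ?_, ?_, ?_, ?_⟩
  · simp only [mem_filter, mem_univ, true_and]
    exact ⟨t, ht, 1, one_ne_zero, by simp⟩
  · simp only [mem_filter, mem_univ, true_and]
    rintro ⟨t, ht, u, hu, h⟩
    rcases mul_eq_zero.1 h.symm with h | h
    · exact h0 (h ▸ ht)
    · exact pow_ne_zero _ hu h
  · simp only [mem_filter, mem_univ, true_and]
    rintro t ⟨t0, ht, u, hu, rfl⟩ w hw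
    exact ⟨t0, ht, u * w, mul_ne_zero hu hw, by rw [mul_pow, mul_assoc]⟩
  · ext t'
    simp only [nb, mem_filter, mem_univ, true_and]
    refine and_congr_right fun _ => ⟨?_, ?_⟩
    · rintro ⟨t, ⟨t0, ht, u, hu, rfl⟩, l, v, hv, h2, h3⟩
      refine ⟨t0, ht, (u⁻¹ * l.1, u⁻¹ * l.2), v * u⁻¹, by simp [hv, hu], ?_, ?_⟩
      · simp only [mul_pow, inv_pow]
        field_simp
        linear_combination h2
      · simp only [mul_pow, inv_pow]
        field_simp
        linear_combination h3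
    · rintro ⟨t, ht, h⟩
      exact ⟨t, ⟨t, ht, 1, one_ne_zero, by simp⟩, h⟩
  · rintro ⟨t, ht⟩
    simp only [mem_filter, mem_univ, true_and] at ht
    obtain ⟨t0, ht, -⟩ := ht
    exact ⟨t0, ht⟩

theorem exists_root {q : ℕ} (h3 : 3 ≤ p) (hq : ¬ Nat.Coprime q (p - 1)) :
    ∃ w : ZMod p, w ≠ 1 ∧ w ^ q = 1 := by
  by_contra hno
  push Not at hno
  rcases Nat.eq_zero_or_pos q with rfl | hq0
  · exact hno 0 zero_ne_one (pow_zero _)
  refine not_bij_pow 1 h3 hq0 hq (Finite.injective_iff_bijective.1 fun x y hxy => ?_)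
  simp only [one_mul] at hxy
  by_cases hy : y = 0
  · rw [hy, zero_pow hq0.ne'] at hxy
    rw [hy]; exact pow_eq_zero_iff hq0.ne' |>.1 hxy
  · by_contra hne
    refine hno (x / y) (fun h => hne ((div_eq_one_iff_eq hy).1 h)) ?_
    rw [div_pow, hxy, div_self (pow_ne_zero _ hy)]

/-- The main reduction: Hall's condition for invariant sets excludes surjectivity. -/
theorem not_surj_of_hall (h3 : 3 ≤ p) {m : ℕ} (hm : 0 < m) {a b : ZMod p} (ha : a ≠ 0)
    (hb : b ≠ 0) {q s : ℕ} (hq : ¬ Nat.Coprime q (p - 1)) (hs : ¬ Nat.Coprime s (p - 1))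
    (π : (Fin (m + 1) → ZMod p) → ZMod p)
    (hπ : ∀ w w', (∀ j, j ≠ 0 → j ≠ Fin.last m → w j = w' j) → π w = π w')
    (hall : ∀ A : Finset (ZMod p), 0 ∉ A → (∀ t ∈ A, ∀ u : ZMod p, u ≠ 0 → t * u ^ q ∈ A) →
      A.card ≤ (nb a b q s A).card) :
    ¬ Function.Surjective
      (glob m fun w => π w + a * (w 0) ^ q + b * (w (Fin.last m)) ^ s) := by
  classical
  have hall' : ∀ A : Finset (ZMod p), 0 ∉ A → A.card ≤ (nb a b q s A).card := fun A h0 => by
    obtain ⟨B, h1, h2, h4, h5, -⟩ := exists_sat a b q s A h0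
    exact (card_le_card h1).trans (h5 ▸ hall B h2 h4)
  -- the matching fixing zero
  obtain ⟨σ, hσ, hσ'⟩ := (Fintype.all_card_le_filter_rel_iff_exists_injective
    (fun t t' : ZMod p => (t = 0 ∧ t' = 0) ∨ (t ≠ 0 ∧ t' ≠ 0 ∧ rel a b q s t t'))).1 (fun A => by
      have h1 := hall' (A.erase 0) (notMem_erase _ _)
      by_cases h0 : (0 : ZMod p) ∈ A
      · have h2 : insert 0 (nb a b q s (A.erase 0)) ⊆ univ.filter fun t' => ∃ t ∈ A,
            (t = 0 ∧ t' = 0) ∨ (t ≠ 0 ∧ t' ≠ 0 ∧ rel a b q s t t') := by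
          intro t' ht'
          simp only [mem_insert, nb, mem_filter, mem_univ, true_and, mem_erase] at ht' ⊢
          rcases ht' with rfl | ⟨h2, t, ⟨h4, h5⟩, h6⟩
          · exact ⟨0, h0, Or.inl ⟨rfl, rfl⟩⟩
          · exact ⟨t, h5, Or.inr ⟨h4, h2, h6⟩⟩
        have h4 := card_le_card h2
        rw [card_insert_of_notMem (by simp [nb])] at h4
        rw [card_erase_of_mem h0] at h1
        omega
      · rw [erase_eq_of_notMem h0] at h1
        refine h1.trans (card_le_card fun t' ht' => ?_)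
        simp only [nb, mem_filter, mem_univ, true_and] at ht' ⊢
        obtain ⟨h2, t, h5, h6⟩ := ht'
        exact ⟨t, h5, Or.inr ⟨fun h => h0 (h ▸ h5), h2, h6⟩⟩)
  have hσ0 : σ 0 = 0 := by
    rcases hσ' 0 with h | h
    · exact h.2
    · exact absurd rfl h.1
  have mk : ∀ w : ZMod p, w ^ q = 1 → w ^ s = 1 →
      ∃ ρ : ZMod p × ZMod p → ℝ, (∀ l, 0 ≤ ρ l) ∧ 0 < ρ (1, w) ∧
      (∀ τ, ∑ l : ZMod p × ZMod p, (if a * l.1 ^ q - a * l.2 ^ q = τ then ρ l else 0) = p - 1) ∧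
      (∀ τ, ∑ l : ZMod p × ZMod p, (if b * l.1 ^ s - b * l.2 ^ s = τ then ρ l else 0) = p - 1) := by
    intro w hw1 hw2
    have : ∀ t, ∃ l : ZMod p × ZMod p, (t = 0 → l = (1, w)) ∧ a * l.1 ^ q - a * l.2 ^ q = t ∧
        ∃ v : ZMod p, v ≠ 0 ∧ b * l.1 ^ s - b * l.2 ^ s = σ t * v ^ s := by
      intro t
      rcases hσ' t with ⟨rfl, h⟩ | ⟨h1, -, l, v, hv, h4, h5⟩
      · exact ⟨(1, w), fun _ => rfl, by simp [hw1], 1, one_ne_zero, by simp [hw2, h]⟩
      · exact ⟨l, fun h => absurd h h1, h4, v, hv, h5⟩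
    choose ℓ h1 h2 h4 using this
    obtain ⟨ρ, r1, r2, r3, r4⟩ := exists_weight a b q s ℓ σ hσ h2 h4
    exact ⟨ρ, r1, h1 0 rfl ▸ r2 0, r3, r4⟩
  obtain ⟨ρ0, a1, a2, a3, a4⟩ := mk 1 (one_pow _) (one_pow _)
  suffices h : ∃ ρ : ZMod p × ZMod p → ℝ, (∀ l, 0 ≤ ρ l) ∧ (∃ w, w ≠ 1 ∧ w ^ s = 1 ∧ 0 < ρ (1, w)) ∧
      (∀ τ, ∑ l : ZMod p × ZMod p, (if a * l.1 ^ q - a * l.2 ^ q = τ then ρ l else 0) = p - 1) ∧
      (∀ τ, ∑ l : ZMod p × ZMod p, (if b * l.1 ^ s - b * l.2 ^ s = τ then ρ l else 0) = p - 1) by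
    obtain ⟨ρ1, b1, ⟨w, w1, w2, b2⟩, b3, b4⟩ := h
    refine not_surj_of_weight hm (fun x => a * x ^ q) (fun x => b * x ^ s) π hπ
      (fun l => ρ0 l + ρ1 l) (fun l => add_nonneg (a1 l) (b1 l)) ((p - 1) + (p - 1))
      (fun τ => ?_) (fun τ => ?_) 1 1 w (add_pos_of_pos_of_nonneg a2 (b1 _))
      (add_pos_of_nonneg_of_pos (a1 _) b2) w1.symm (by simp [w2])
    · rw [← congrArg₂ (· + ·) (a3 τ) (b3 τ), ← sum_add_distrib]
      exact sum_congr rfl fun l _ => by split_ifs <;> simp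
    · rw [← congrArg₂ (· + ·) (a4 τ) (b4 τ), ← sum_add_distrib]
      exact sum_congr rfl fun l _ => by split_ifs <;> simp
  by_cases hc : Nat.Coprime (Nat.gcd q s) (p - 1)
  swap
  · obtain ⟨w, w1, w2⟩ := exists_root h3 hc
    have w3 : w ^ q = 1 := ((pow_gcd_eq_one (a := w)).1 w2).1
    have w4 : w ^ s = 1 := ((pow_gcd_eq_one (a := w)).1 w2).2
    obtain ⟨ρ1, b1, b2, b3, b4⟩ := mk w w3 w4
    exact ⟨ρ1, b1, ⟨w, w1, w4, b2⟩, b3, b4⟩
  obtain ⟨w, w1, w2⟩ := exists_root h3 hs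
  obtain ⟨w', w1', w2'⟩ := exists_root h3 hq
  have hcop : ∀ x : ZMod p, x ^ q = 1 → x ^ s = 1 → x = 1 := fun x h1 h2 => by
    have h4 : x ^ Nat.gcd q s = 1 := (pow_gcd_eq_one (a := x)).2 ⟨h1, h2⟩
    have hx : x ≠ 0 := by
      rintro rfl
      rcases Nat.eq_zero_or_pos (Nat.gcd q s) with h | h
      · rw [h] at hc; simp at hc; omega
      · rw [zero_pow h.ne'] at h4; exact zero_ne_one h4
    have h5 := (pow_gcd_eq_one (a := x)).2 ⟨h4, ZMod.pow_card_sub_one_eq_one hx⟩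
    rwa [hc, pow_one] at h5
  set t0 := a * 1 ^ q - a * w ^ q with ht0
  set t1 := b * 1 ^ s - b * w' ^ s with ht1
  have t00 : t0 ≠ 0 := fun h => w1 (hcop w (by
    have : a * (1 - w ^ q) = 0 := by rw [← h, ht0]; ring
    exact (sub_eq_zero.1 ((mul_eq_zero.1 this).resolve_left ha)).symm) w2)
  have t10 : t1 ≠ 0 := fun h => w1' (hcop w' w2' (by
    have : b * (1 - w' ^ s) = 0 := by rw [← h, ht1]; ring
    exact (sub_eq_zero.1 ((mul_eq_zero.1 this).resolve_left hb)).symm))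
  have strict : ∀ A : Finset (ZMod p), 0 ∉ A → t0 ∉ A → A.card ≤ ((nb a b q s A).erase t1).card := by
    intro A h0 h1
    obtain ⟨B, c1, c2, c4, c5, c6⟩ := exists_sat a b q s A h0
    have d1 := hall B c2 c4
    have d2 := card_le_card c1
    have d3 := pred_card_le_card_erase (s := nb a b q s A) (a := t1)
    rw [c5] at d1
    by_contra hlt
    have e1 : B.card = A.card := by omega
    have e2 : (nb a b q s A).card = A.card := by omega
    have e3 := dvd_card B c2 c4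
    have e4 := dvd_card (nb a b q s A) (by simp [nb]) (nb_inv a b q s A)
    rw [e1] at e3; rw [e2] at e4
    have e5 : p - 1 ∣ A.card := by
      have := Nat.dvd_gcd e3 e4
      rw [Nat.gcd_mul_right] at this
      have e6 : (Nat.gcd q (p - 1)).gcd (Nat.gcd s (p - 1)) = 1 := by
        refine Nat.eq_one_of_dvd_one (Dvd.dvd.trans ?_ (dvd_of_eq hc))
        exact Nat.dvd_gcd (Nat.dvd_gcd ((Nat.gcd_dvd_left _ _).trans (Nat.gcd_dvd_left _ _))
          ((Nat.gcd_dvd_right _ _).trans (Nat.gcd_dvd_left _ _)))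
          ((Nat.gcd_dvd_left _ _).trans (Nat.gcd_dvd_right _ _))
      rwa [e6, one_mul] at this
    have e7 : A.card ≤ p - 2 := by
      have : A ⊆ (univ.erase 0).erase t0 := fun x hx => by
        simp only [mem_erase, mem_univ, and_true]
        exact ⟨fun h => h1 (h ▸ hx), fun h => h0 (h ▸ hx)⟩
      have := card_le_card this
      rw [card_erase_of_mem (by simpa using t00), card_erase_of_mem (mem_univ _), card_univ,
        ZMod.card] at this
      omega
    have := Nat.le_of_dvd (by omega) e5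
    omega
  obtain ⟨σ1, hσ1, hσ1'⟩ := (Fintype.all_card_le_filter_rel_iff_exists_injective
    (fun t t' : ZMod p => (t = 0 ∧ t' = t1) ∨ (t = t0 ∧ t' = 0) ∨
      (t ≠ t0 ∧ rel a b q s t t'))).1 (fun A => by
      have h1 := strict ((A.erase 0).erase t0) (by simp) (notMem_erase _ _)
      set N := (nb a b q s ((A.erase 0).erase t0)).erase t1 with hN
      set S := (if (0 : ZMod p) ∈ A then {t1} else ∅ : Finset (ZMod p)) with hS
      set T := (if t0 ∈ A then {0} else ∅ : Finset (ZMod p)) with hT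
      have h2 : N ∪ (S ∪ T) ⊆ univ.filter fun t' => ∃ t ∈ A, (t = 0 ∧ t' = t1) ∨
          (t = t0 ∧ t' = 0) ∨ (t ≠ t0 ∧ rel a b q s t t') := by
        intro t' ht'
        simp only [mem_union, hN, hS, hT, nb, mem_filter, mem_univ, true_and, mem_erase] at ht' ⊢
        rcases ht' with ⟨-, -, t, ⟨h4, -, h5⟩, h6⟩ | h | h
        · exact ⟨t, h5, Or.inr (Or.inr ⟨h4, h6⟩)⟩
        · split_ifs at h with h0
          · exact ⟨0, h0, Or.inl ⟨rfl, mem_singleton.1 h⟩⟩
          · simp at h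
        · split_ifs at h with h0
          · exact ⟨t0, h0, Or.inr (Or.inl ⟨rfl, mem_singleton.1 h⟩)⟩
          · simp at h
      refine le_trans ?_ (card_le_card h2)
      have h4 : Disjoint N (S ∪ T) := by
        rw [disjoint_right]
        intro x hx
        simp only [mem_union, hS, hT] at hx
        rcases hx with h | h
        · split_ifs at h
          · rw [mem_singleton.1 h, hN]; exact notMem_erase _ _
          · exact absurd h (notMem_empty _)
        · split_ifs at h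
          · rw [mem_singleton.1 h, hN]
            intro h'
            have := mem_of_mem_erase h'
            simp [nb] at this
          · exact absurd h (notMem_empty _)
      have h5 : Disjoint S T := by
        rw [disjoint_right]
        intro x hx
        have hx0 : x = 0 := by
          rw [hT] at hx
          split_ifs at hx
          · exact mem_singleton.1 hx
          · exact absurd hx (notMem_empty _)
        rw [hS, hx0]
        split_ifs
        · rw [mem_singleton]; exact t10.symm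
        · exact notMem_empty _
      rw [card_union_of_disjoint h4, card_union_of_disjoint h5]
      have h6 : A.card = ((A.erase 0).erase t0).card + (S.card + T.card) := by
        rw [card_erase_eq_ite, card_erase_eq_ite, hS, hT]
        have := card_pos (s := A)
        by_cases c0 : (0 : ZMod p) ∈ A <;> by_cases c1 : t0 ∈ A
        · have : 2 ≤ A.card := by
            have : ({0, t0} : Finset (ZMod p)) ⊆ A := by
              intro x hx; simp only [mem_insert, mem_singleton] at hx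
              rcases hx with rfl | rfl <;> assumption
            have h := card_le_card this
            rwa [card_pair t00.symm] at h
          simp [c0, c1, t00]; omega
        · have := card_pos.2 ⟨_, c0⟩
          simp [c0, c1]; omega
        · have := card_pos.2 ⟨_, c1⟩
          simp [c0, c1, t00]; omega
        · simp [c0, c1]
      omega)
  have : ∀ t, ∃ l : ZMod p × ZMod p, (t = t0 → l = (1, w)) ∧ a * l.1 ^ q - a * l.2 ^ q = t ∧
      ∃ v : ZMod p, v ≠ 0 ∧ b * l.1 ^ s - b * l.2 ^ s = σ1 t * v ^ s := by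
    intro t
    rcases hσ1' t with ⟨rfl, h⟩ | ⟨rfl, h⟩ | ⟨h1, l, v, hv, h4, h5⟩
    · exact ⟨(1, w'), fun h => absurd h.symm t00, by simp [w2'], 1, one_ne_zero, by simp [h, ht1]⟩
    · exact ⟨(1, w), fun _ => rfl, rfl, 1, one_ne_zero, by simp [w2, h]⟩
    · exact ⟨l, fun h => absurd h h1, h4, v, hv, h5⟩
  choose ℓ h1 h2 h4 using this
  obtain ⟨ρ, r1, r2, r3, r4⟩ := exists_weight a b q s ℓ σ1 hσ1 h2 h4
  exact ⟨ρ, r1, ⟨w, w1, w2, h1 t0 rfl ▸ r2 t0⟩, r3, r4⟩

end Pool.Agent.Work.MP_72ebf0_an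
end

-- merged part: Pool.Agent.Work.MP_72ebf0_an.HallTwo
section
/-!
Hall's condition when both gcds equal two, and the passage to the centred form.
-/

namespace Pool.Agent.Work.MP_72ebf0_an

open Finset

variable {p : ℕ} [hp : Fact p.Prime]

theorem pow_eq_pow_iff_gcd {q : ℕ} (hq : 0 < q) (x y : ZMod p) :
    x ^ q = y ^ q ↔ x ^ Nat.gcd q (p - 1) = y ^ Nat.gcd q (p - 1) := by
  have hd : 0 < Nat.gcd q (p - 1) := Nat.gcd_pos_of_pos_left _ hq
  by_cases hy : y = 0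
  · subst hy
    rw [zero_pow hq.ne', zero_pow hd.ne', pow_eq_zero_iff hq.ne', pow_eq_zero_iff hd.ne']
  by_cases hx : x = 0
  · subst hx
    rw [zero_pow hq.ne', zero_pow hd.ne', eq_comm, eq_comm (a := (0 : ZMod p)),
      pow_eq_zero_iff hq.ne', pow_eq_zero_iff hd.ne']
  rw [← div_eq_one_iff_eq (pow_ne_zero _ hy), ← div_eq_one_iff_eq (pow_ne_zero _ hy), ← div_pow,
    ← div_pow, pow_gcd_eq_one]
  exact ⟨fun h => ⟨h, ZMod.pow_card_sub_one_eq_one (div_ne_zero hx hy)⟩, fun h => h.1⟩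

theorem exists_pow_eq_pow_gcd {q : ℕ} (hq : 0 < q) (y : ZMod p) :
    ∃ x : ZMod p, x ^ q = y ^ Nat.gcd q (p - 1) := by
  have hd : 0 < Nat.gcd q (p - 1) := Nat.gcd_pos_of_pos_left _ hq
  by_cases hy : y = 0
  · exact ⟨0, by rw [hy, zero_pow hq.ne', zero_pow hd.ne']⟩
  refine ⟨y ^ Nat.gcdA q (p - 1), ?_⟩
  rw [← zpow_natCast y (Nat.gcd q (p - 1)), Nat.gcd_eq_gcd_ab, zpow_add₀ hy, zpow_mul y (p - 1 : ℕ),
    zpow_natCast, ZMod.pow_card_sub_one_eq_one hy, one_zpow, mul_one, ← zpow_natCast, ← zpow_mul,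
    mul_comm]

theorem diff_surj_two (h3 : 3 ≤ p) {q : ℕ} (hq : 0 < q) (hd : Nat.gcd q (p - 1) = 2) {a : ZMod p}
    (ha : a ≠ 0) (t : ZMod p) : ∃ l : ZMod p × ZMod p, a * l.1 ^ q - a * l.2 ^ q = t := by
  have h2 : (2 : ZMod p) ≠ 0 := by
    intro h
    have : ((2 : ℕ) : ZMod p) = 0 := by exact_mod_cast h
    rw [ZMod.natCast_eq_zero_iff] at this
    have := Nat.le_of_dvd (by norm_num) this
    omega
  obtain ⟨x, hx⟩ := exists_pow_eq_pow_gcd hq ((t / a + 1) / 2)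
  obtain ⟨y, hy⟩ := exists_pow_eq_pow_gcd hq ((t / a - 1) / 2)
  refine ⟨(x, y), ?_⟩
  simp only [hx, hy, hd]
  field_simp
  ring

theorem hall_two (h3 : 3 ≤ p) {a b : ZMod p} (ha : a ≠ 0) (hb : b ≠ 0) {q s : ℕ} (hq : 0 < q)
    (hs : 0 < s) (h1 : Nat.gcd q (p - 1) = 2) (h2 : Nat.gcd s (p - 1) = 2)
    (A : Finset (ZMod p)) (h0 : 0 ∉ A) (hinv : ∀ t ∈ A, ∀ u : ZMod p, u ≠ 0 → t * u ^ q ∈ A) :
    A.card ≤ (nb a b q s A).card := by
  classical
  have key : ∀ l : ZMod p × ZMod p, a * l.1 ^ q - a * l.2 ^ q = 0 ↔ b * l.1 ^ s - b * l.2 ^ s = 0 := by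
    intro l
    rw [← mul_sub, ← mul_sub, mul_eq_zero, mul_eq_zero, sub_eq_zero, sub_eq_zero,
      pow_eq_pow_iff_gcd hq, pow_eq_pow_iff_gcd hs, h1, h2]
    simp [ha, hb]
  have hsub : ∀ B : Finset (ZMod p), 0 ∉ B → B ⊆ univ.erase 0 := fun B hB x hx => by
    simp only [mem_erase, mem_univ, and_true]
    exact fun h => hB (h ▸ hx)
  have hc : (univ.erase (0 : ZMod p)).card = p - 1 := by
    rw [card_erase_of_mem (mem_univ _), card_univ, ZMod.card]
  by_cases hfull : A = univ.erase 0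
  · refine card_le_card fun t' ht' => ?_
    have h4 : t' ≠ 0 := fun h => h0 (h ▸ ht')
    obtain ⟨l, hl⟩ := diff_surj_two h3 hs h2 hb t'
    simp only [nb, mem_filter, mem_univ, true_and]
    refine ⟨h4, a * l.1 ^ q - a * l.2 ^ q, ?_, l, 1, one_ne_zero, rfl, by simp [hl]⟩
    rw [hfull, mem_erase]
    exact ⟨fun h => h4 (hl ▸ (key l).1 h), mem_univ _⟩
  rcases A.eq_empty_or_nonempty with rfl | ⟨t, ht⟩
  · simp
  obtain ⟨l, hl⟩ := diff_surj_two h3 hq h1 ha t
  have h4 : (nb a b q s A).Nonempty := by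
    refine ⟨b * l.1 ^ s - b * l.2 ^ s, ?_⟩
    simp only [nb, mem_filter, mem_univ, true_and]
    exact ⟨fun h => h0 ((hl.symm.trans ((key l).2 h)) ▸ ht), t, ht, l, 1, one_ne_zero, hl, by simp⟩
  have h5 := dvd_card A h0 hinv
  have h6 := dvd_card (nb a b q s A) (by simp [nb]) (nb_inv a b q s A)
  rw [h1] at h5
  rw [h2] at h6
  have h7 : A.card < p - 1 := hc ▸ card_lt_card (ssubset_of_subset_of_ne (hsub A h0) hfull)
  have h8 := Nat.le_of_dvd (by have := card_pos.2 h4; omega) h6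
  obtain ⟨c, hc'⟩ := h5
  have : c < 2 := by
    by_contra hge
    have : (p - 1) * 2 ≤ (p - 1) * c := Nat.mul_le_mul_left _ (by omega)
    omega
  interval_cases c <;> omega

/-- the centred form of the main reduction -/
theorem centred_of_hall (h3 : 3 ≤ p) (ρ : ℕ) (l r : Fin (2 * ρ + 1)) (hlr : l < r)
    {a b : ZMod p} (ha : a ≠ 0) (hb : b ≠ 0) {q s : ℕ} (hq : ¬ Nat.Coprime q (p - 1))
    (hs : ¬ Nat.Coprime s (p - 1)) (π : (Fin (2 * ρ + 1) → ZMod p) → ZMod p)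
    (hπ : ∀ x y, (∀ j, l < j → j < r → x j = y j) → π x = π y)
    (F : (ℤ → ZMod p) → ℤ → ZMod p)
    (hF : ∀ (x : ℤ → ZMod p) (i : ℤ), F x i = π (fun j => x (i - ρ + (j : ℕ))) +
      a * x (i - ρ + (l : ℕ)) ^ q + b * x (i - ρ + (r : ℕ)) ^ s)
    (hall : ∀ A : Finset (ZMod p), 0 ∉ A → (∀ t ∈ A, ∀ u : ZMod p, u ≠ 0 → t * u ^ q ∈ A) →
      A.card ≤ (nb a b q s A).card) : ¬ Function.Surjective F := by
  intro hsurj
  have hlr' : (l : ℕ) < r := hlr
  have h1 := reduce ρ l r hlr (fun x => a * x ^ q) (fun x => b * x ^ s) π hπ F hF hsurj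
  refine not_surj_of_hall h3 (m := (r : ℕ) - l) (by omega) ha hb hq hs _ ?_ hall h1
  intro w w' hw
  refine hπ _ _ fun j h2 h4 => ?_
  have h2' : (l : ℕ) < j := h2
  have h4' : (j : ℕ) < r := h4
  rw [dif_pos ⟨h2'.le, h4'.le⟩, dif_pos ⟨h2'.le, h4'.le⟩]
  refine hw _ ?_ ?_
  · intro h
    have := congrArg Fin.val h
    simp only [Fin.val_zero] at this
    omega
  · intro h
    have := congrArg Fin.val h
    simp only [Fin.val_last] at this
    omega

end Pool.Agent.Work.MP_72ebf0_an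
end
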