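import Mathlib

-- merged part: Pool.Agent.Work.MP_72ebf0_an.Hedlund
section
/-!
Hedlund's balance theorem and Moore's theorem for surjective one-dimensional cellular automata.
-/

namespace Pool.Agent.Work.MP_72ebf0_an

open Finset

variable {A : Type} [Fintype A] [DecidableEq A]

/-- the block map on words -/
def blk (m : ℕ) (f : (Fin (m + 1) → A) → A) (n : ℕ) (x : Fin (n + m) → A) : Fin n → A :=
  fun i => f fun j => x ⟨i + j, by omega⟩

/-- the global map -/
def glob (m : ℕ) (f : (Fin (m + 1) → A) → A) (x : ℤ → A) : ℤ → A :=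
  fun i => f fun j => x (i + (j : ℕ))

theorem card_pow_le [Inhabited A] {m : ℕ} {f : (Fin (m + 1) → A) → A}
    (hs : Function.Surjective (glob m f)) {n : ℕ} (hL : 0 < n + m) (u : Fin n → A) (J : ℕ) :
    (Fintype.card A ^ m) ^ J ≤ (univ.filter fun x => blk m f n x = u).card ^ (J + 1) := by
  classical
  let y : (Fin J → Fin m → A) → ℤ → A := fun s i =>
    if hr : i.toNat % (n + m) < n then u ⟨_, hr⟩
    else if hq : i.toNat / (n + m) < J then
      s ⟨_, hq⟩ ⟨i.toNat % (n + m) - n, by have := Nat.mod_lt i.toNat hL; omega⟩ else default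
  have hy1 : ∀ s (b : ℕ) (i : Fin n), y s ((b * (n + m) + i : ℕ) : ℤ) = u i := by
    intro s b i
    have h1 : (b * (n + m) + i) % (n + m) = i := by
      rw [Nat.mul_add_mod_self_right]; exact Nat.mod_eq_of_lt (by omega)
    simp only [y, Int.toNat_natCast, h1, i.2, dite_true]
  have hy2 : ∀ s (b : Fin J) (r : Fin m), y s ((b * (n + m) + (n + r) : ℕ) : ℤ) = s b r := by
    intro s b r
    have h1 : (b * (n + m) + (n + r)) % (n + m) = n + r := by
      rw [Nat.mul_add_mod_self_right]; exact Nat.mod_eq_of_lt (by omega)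
    have h2 : (b * (n + m) + (n + r)) / (n + m) = b := by
      rw [Nat.add_comm, Nat.add_mul_div_right _ _ hL, Nat.div_eq_of_lt (by omega)]; simp
    simp only [y, Int.toNat_natCast, h1, h2, b.2, dite_true]
    rw [dif_neg (by omega)]
    congr 1
    ext; simp
  choose x hx using fun s => hs (y s)
  let T : (Fin J → Fin m → A) → Fin (J + 1) → (univ.filter fun x => blk m f n x = u) :=
    fun s b => ⟨fun t => x s ((b * (n + m) + t : ℕ) : ℤ), by
      simp only [mem_filter, mem_univ, true_and]
      funext i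
      rw [← hy1 s b i, ← hx s]
      simp only [blk, glob]
      congr 1
      funext j
      congr 1
      push_cast; ring⟩
  have hT : Function.Injective T := by
    intro s s' h
    have key : ∀ k : ℕ, k < (J + 1) * (n + m) → x s (k : ℤ) = x s' (k : ℤ) := by
      intro k hk
      have hb : k / (n + m) < J + 1 := by rwa [Nat.div_lt_iff_lt_mul hL]
      have := congrFun (congrArg Subtype.val (congrFun h ⟨_, hb⟩)) ⟨k % (n + m), Nat.mod_lt _ hL⟩
      simpa only [T, Nat.div_add_mod'] using this
    funext b r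
    rw [← hy2 s b r, ← hy2 s' b r, ← hx s, ← hx s']
    simp only [glob]
    congr 1
    funext j
    have hb : (b : ℕ) + 1 ≤ J := b.2
    have h3 : (b + 1) * (n + m) ≤ J * (n + m) := Nat.mul_le_mul_right _ hb
    have := key (b * (n + m) + (n + r) + j) (by
      have := r.2; have := j.2; nlinarith)
    simpa only [Nat.cast_add] using this
  have := Fintype.card_le_of_injective T hT
  rw [Fintype.card_fun, Fintype.card_fun, Fintype.card_fun, Fintype.card_coe] at this
  simpa using this

theorem le_card_fiber [Inhabited A] {m : ℕ} {f : (Fin (m + 1) → A) → A}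
    (hs : Function.Surjective (glob m f)) {n : ℕ} (hL : 0 < n + m) (u : Fin n → A) :
    Fintype.card A ^ m ≤ (univ.filter fun x => blk m f n x = u).card := by
  set K := Fintype.card A ^ m
  set c := (univ.filter fun x => blk m f n x = u).card
  by_contra hlt
  push Not at hlt
  have h := card_pow_le hs hL u (c * c)
  have h1 : (c + 1) ^ (c * c) ≤ c ^ (c * c + 1) :=
    (Nat.pow_le_pow_left hlt _).trans h
  rcases Nat.eq_zero_or_pos c with h0 | h0
  · simp [h0] at h1
  have hc : (0 : ℝ) < c := by exact_mod_cast h0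
  have h2 : (1 + (c * c : ℕ) * (1 / (c : ℝ))) ≤ (1 + 1 / (c : ℝ)) ^ (c * c) :=
    one_add_mul_le_pow (by have : (0 : ℝ) ≤ 1 / c := by positivity
                           linarith) _
  have h3 : (1 + 1 / (c : ℝ)) ^ (c * c) * (c : ℝ) ^ (c * c) = (c + 1 : ℝ) ^ (c * c) := by
    rw [← mul_pow]; congr 1; field_simp
  have h4 : ((c : ℝ) + 1) ^ (c * c) ≤ (c : ℝ) ^ (c * c) * c := by
    rw [← pow_succ]; exact_mod_cast h1
  have h5 : (1 + (c * c : ℕ) * (1 / (c : ℝ))) = 1 + c := by push_cast; field_simp
  have h6 : (0 : ℝ) < (c : ℝ) ^ (c * c) := by positivity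
  rw [h5] at h2
  nlinarith

/-- Hedlund's balance theorem. -/
theorem card_fiber [Inhabited A] {m : ℕ} {f : (Fin (m + 1) → A) → A}
    (hs : Function.Surjective (glob m f)) {n : ℕ} (hL : 0 < n + m) (u : Fin n → A) :
    (univ.filter fun x => blk m f n x = u).card = Fintype.card A ^ m := by
  have h1 : ∑ v : Fin n → A, (univ.filter fun x => blk m f n x = v).card
      = ∑ _v : Fin n → A, Fintype.card A ^ m := by
    rw [← Finset.card_eq_sum_card_fiberwise (f := blk m f n) (s := univ) (t := univ)
      (fun _ _ => mem_univ _)]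
    simp [pow_add]
  exact ((Finset.sum_eq_sum_iff_of_le (fun v _ => le_card_fiber hs hL v)).1 h1.symm u
    (mem_univ _)).symm

/-- Moore's theorem: no diamonds. -/
theorem no_diamond [Inhabited A] {m : ℕ} {f : (Fin (m + 1) → A) → A}
    (hs : Function.Surjective (glob m f)) {n : ℕ} (hn : 0 < n) (w w' : ℕ → A)
    (h1 : ∀ i < m, w i = w' i) (h2 : ∀ j < m, w (n + j) = w' (n + j))
    (h3 : ∀ t < n, f (fun j => w (t + j)) = f (fun j => w' (t + j))) : w m = w' m := by
  by_contra hne
  have hL : 0 < n + m := by omega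
  set J := Fintype.card A ^ m with hJ
  have hJ0 : 0 < J := pow_pos Fintype.card_pos _
  let N := J * (n + m) - m
  have hN : N + m = J * (n + m) := by
    have : 1 * (n + m) ≤ J * (n + m) := Nat.mul_le_mul_right _ hJ0
    omega
  let X : (Fin J → Bool) → ℕ → A := fun ε i =>
    if h : i / (n + m) < J then (if ε ⟨_, h⟩ then w (i % (n + m)) else w' (i % (n + m)))
    else default
  have hX : ∀ ε (i : ℕ), i < J * (n + m) → (i % (n + m) < m ∨ n ≤ i % (n + m)) →
      X ε i = w (i % (n + m)) := by
    intro ε i hi hc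
    have hb : i / (n + m) < J := by rwa [Nat.div_lt_iff_lt_mul hL]
    simp only [X, hb, dite_true]
    split_ifs
    · rfl
    · rcases hc with hc | hc
      · exact (h1 _ hc).symm
      · have := h2 (i % (n + m) - n) (by have := Nat.mod_lt i hL; omega)
        rw [Nat.add_sub_cancel' hc] at this
        exact this.symm
  have hlab : ∀ ε ε' (i : Fin N), blk m f N (fun t => X ε t) i = blk m f N (fun t => X ε' t) i := by
    intro ε ε' i
    simp only [blk]
    have hi := i.2
    have hb : (i : ℕ) / (n + m) < J := by rw [Nat.div_lt_iff_lt_mul hL]; omega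
    by_cases hr : (i : ℕ) % (n + m) < n
    · have hd : ∀ j : Fin (m + 1), (i + j : ℕ) / (n + m) = i / (n + m) ∧
          (i + j : ℕ) % (n + m) = i % (n + m) + j := by
        intro j
        have := j.2
        have e : (i + j : ℕ) = (i % (n + m) + j) + (n + m) * (i / (n + m)) := by
          have := Nat.mod_add_div (i : ℕ) (n + m); omega
        constructor
        · rw [e, Nat.add_mul_div_left _ _ hL, Nat.div_eq_of_lt (by omega)]; simp
        · rw [e, Nat.add_mul_mod_self_left, Nat.mod_eq_of_lt (by omega)]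
      have hv : ∀ ε : Fin J → Bool, f (fun j => X ε (i + j)) =
          f (fun j => w (i % (n + m) + j)) := by
        intro ε
        by_cases he : ε ⟨_, hb⟩
        · congr 1; funext j
          simp only [X, (hd j).1, (hd j).2, hb, dite_true, he, if_true]
        · rw [h3 _ hr]
          congr 1; funext j
          simp [X, (hd j).1, (hd j).2, hb, he]
      exact (hv ε).trans (hv ε').symm
    · congr 1
      funext j
      have hj := j.2
      have hc : (i + j : ℕ) % (n + m) < m ∨ n ≤ (i + j : ℕ) % (n + m) := by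
        have hlt := Nat.mod_lt (i : ℕ) hL
        have e := Nat.mod_add_div (i : ℕ) (n + m)
        by_cases hh : i % (n + m) + j < n + m
        · right
          have e' : (i + j : ℕ) = (i % (n + m) + j) + (n + m) * (i / (n + m)) := by omega
          rw [e', Nat.add_mul_mod_self_left, Nat.mod_eq_of_lt hh]; omega
        · left
          have e' : (i + j : ℕ) = (i % (n + m) + j - (n + m)) + (n + m) * (i / (n + m) + 1) := by
            rw [Nat.mul_add]; omega
          rw [e', Nat.add_mul_mod_self_left, Nat.mod_eq_of_lt (by omega)]; omega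
      rw [hX ε _ (by omega) hc, hX ε' _ (by omega) hc]
  let u := blk m f N (fun t => X (fun _ => true) t)
  let T : (Fin J → Bool) → (univ.filter fun x => blk m f N x = u) := fun ε =>
    ⟨fun t => X ε t, by
      simp only [mem_filter, mem_univ, true_and]
      funext i; exact hlab ε (fun _ => true) i⟩
  have hT : Function.Injective T := by
    intro ε ε' h
    funext b
    have hb : (b : ℕ) + 1 ≤ J := b.2
    have h4 : (b + 1) * (n + m) ≤ J * (n + m) := Nat.mul_le_mul_right _ hb
    have h5 := congrFun (congrArg Subtype.val h) ⟨b * (n + m) + m, by rw [hN]; nlinarith⟩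
    have h6 : (b * (n + m) + m) % (n + m) = m := by
      rw [Nat.mul_add_mod_self_right]; exact Nat.mod_eq_of_lt (by omega)
    have h7 : (b * (n + m) + m) / (n + m) = b := by
      rw [Nat.add_comm, Nat.add_mul_div_right _ _ hL, Nat.div_eq_of_lt (by omega)]; simp
    simp only [T, X, h6, h7, b.2, dite_true, Fin.eta] at h5
    cases h8 : ε b <;> cases h9 : ε' b <;> simp_all
  have h10 := Fintype.card_le_of_injective T hT
  have hNm : 0 < N + m := by rw [hN]; positivity
  rw [Fintype.card_coe, card_fiber hs hNm] at h10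
  simp only [Fintype.card_fun, Fintype.card_bool, Fintype.card_fin] at h10
  exact absurd h10 (not_le.2 (Nat.lt_two_pow_self))

end Pool.Agent.Work.MP_72ebf0_an
end

-- merged part: Pool.Agent.Work.MP_72ebf0_an.Flow
section
/-!
Paths in de Bruijn graphs, and the conservative flow argument.
-/

namespace Pool.Agent.Work.MP_72ebf0_an

open Finset

variable {Λ : Type}

/-- states reachable from the constant state `z` along good windows, the first new letter
satisfying `st` -/
def Reach (m : ℕ) (good : (Fin (m + 1) → Λ) → Prop) (z : Λ) (st : Λ → Prop) :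
    Set (Fin m → Λ) :=
  {s | ∃ n : ℕ, 0 < n ∧ ∃ k : ℕ → Λ, (∀ i < m, k i = z) ∧ st (k m) ∧
    (∀ t < n, good fun j => k (t + j)) ∧ s = fun j : Fin m => k (n + j)}

theorem reach_start {m : ℕ} {good : (Fin (m + 1) → Λ) → Prop} {z : Λ} {st : Λ → Prop}
    (e : Fin (m + 1) → Λ) (he : good e) (h0 : Fin.init e = fun _ => z) (hst : st (e (Fin.last m))) :
    Fin.tail e ∈ Reach m good z st := by
  refine ⟨1, one_pos, fun i => if h : i < m + 1 then e ⟨i, h⟩ else z, ?_, ?_, ?_, ?_⟩
  · intro i hi
    have := congrFun h0 ⟨i, hi⟩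
    simp only [Fin.init, Fin.castSucc_mk] at this
    simp [show i < m + 1 by omega, this]
  · simpa [Fin.last] using hst
  · intro t ht
    obtain rfl : t = 0 := by omega
    convert he using 2 with j
    simp [j.2]
  · funext j
    have : 1 + (j : ℕ) < m + 1 := by omega
    simp only [this, dite_true, Fin.tail]
    congr 1; ext; simp; omega

theorem reach_step {m : ℕ} {good : (Fin (m + 1) → Λ) → Prop} {z : Λ} {st : Λ → Prop}
    (e : Fin (m + 1) → Λ) (he : good e) (h0 : Fin.init e ∈ Reach m good z st) :
    Fin.tail e ∈ Reach m good z st := by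
  obtain ⟨n, hn, k, h1, h2, h3, h4⟩ := h0
  have key : ∀ j : Fin (m + 1), Function.update k (n + m) (e (Fin.last m)) (n + j) = e j := by
    intro j
    rcases Fin.eq_castSucc_or_eq_last j with ⟨i, rfl⟩ | rfl
    · have := i.2
      rw [Function.update_of_ne (by simp; omega)]
      exact (congrFun h4 i).symm
    · simp
  refine ⟨n + 1, by omega, Function.update k (n + m) (e (Fin.last m)), ?_, ?_, ?_, ?_⟩
  · intro i hi; rw [Function.update_of_ne (by omega)]; exact h1 i hi
  · rw [Function.update_of_ne (by omega)]; exact h2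
  · intro t ht
    rcases Nat.lt_succ_iff_lt_or_eq.1 ht with ht | rfl
    · convert h3 t ht using 2 with j
      have := j.2
      rw [Function.update_of_ne (by omega)]
    · convert he using 2 with j
      exact key j
  · funext j
    rw [Fin.tail, ← key j.succ]
    congr 1
    simp; omega

/-- The conservative flow argument. -/
theorem flow_return [Fintype Λ] [DecidableEq Λ] {m : ℕ} (good : (Fin (m + 1) → Λ) → Prop)
    [DecidablePred good] (ρ : Λ → ℝ) (hρ : ∀ l, 0 ≤ ρ l) (lam : ℝ)
    (hout : ∀ s : Fin m → Λ, ∑ l, (if good (Fin.snoc s l) then ρ l else 0) = lam)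
    (hin : ∀ s : Fin m → Λ, ∑ l, (if good (Fin.cons l s) then ρ l else 0) = lam)
    (z z' : Λ) (hz : 0 < ρ z) (hz' : 0 < ρ z') (hg : good (Fin.snoc (fun _ => z) z')) :
    (fun _ => z) ∈ Reach m good z (· = z') := by
  classical
  by_contra hno
  set F := Reach m good z (· = z') with hF
  let φ : (Fin (m + 1) → Λ) → ℝ := fun e => if good e then ∏ j, ρ (e j) else 0
  have hφ : ∀ e, 0 ≤ φ e := fun e => by
    simp only [φ]; split_ifs
    · exact prod_nonneg fun j _ => hρ _
    · exact le_rfl
  have h1 : ∑ e : Fin (m + 1) → Λ, (if Fin.init e ∈ F then φ e else 0) =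
      ∑ s : Fin m → Λ, (if s ∈ F then (∏ j, ρ (s j)) * lam else 0) := by
    rw [← (Fin.snocEquiv fun _ => Λ).sum_comp, Fintype.sum_prod_type_right]
    refine sum_congr rfl fun s _ => ?_
    have h0 : ∀ l, (Fin.snocEquiv fun _ : Fin (m + 1) => Λ) (l, s) = Fin.snoc s l := fun _ => rfl
    simp only [h0, Fin.init_snoc]
    split_ifs
    · rw [← hout s, mul_sum]
      refine sum_congr rfl fun l _ => ?_
      simp only [φ]
      split_ifs
      · rw [Fin.prod_univ_castSucc]; simp
      · simp
    · simp
  have h2 : ∑ e : Fin (m + 1) → Λ, (if Fin.tail e ∈ F then φ e else 0) =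
      ∑ s : Fin m → Λ, (if s ∈ F then (∏ j, ρ (s j)) * lam else 0) := by
    rw [← (Fin.consEquiv fun _ => Λ).sum_comp, Fintype.sum_prod_type_right]
    refine sum_congr rfl fun s _ => ?_
    have h0 : ∀ l, (Fin.consEquiv fun _ : Fin (m + 1) => Λ) (l, s) = Fin.cons l s := fun _ => rfl
    simp only [h0, Fin.tail_cons]
    split_ifs
    · rw [← hin s, mul_sum]
      refine sum_congr rfl fun l _ => ?_
      simp only [φ]
      split_ifs
      · rw [Fin.prod_univ_succ]; simp [mul_comm]
      · simp
    · simp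
  have h3 : ∑ e : Fin (m + 1) → Λ, (if Fin.init e ∈ F then φ e else 0) <
      ∑ e : Fin (m + 1) → Λ, (if Fin.tail e ∈ F then φ e else 0) := by
    refine sum_lt_sum (fun e _ => ?_) ⟨Fin.snoc (fun _ => z) z', mem_univ _, ?_⟩
    · by_cases hi : Fin.init e ∈ F
      · by_cases hgo : good e
        · rw [if_pos hi, if_pos (reach_step e hgo hi)]
        · simp [φ, hgo]
      · simp only [hi, if_false]; split_ifs
        · exact hφ e
        · exact le_rfl
    · have ht : Fin.tail (Fin.snoc (α := fun _ => Λ) (fun _ => z) z') ∈ F :=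
        reach_start _ hg (Fin.init_snoc (α := fun _ => Λ) _ _) (by simp)
      rw [if_pos ht, Fin.init_snoc, if_neg hno]
      simp only [φ, hg, if_true]
      rw [Fin.prod_univ_castSucc]
      simp only [Fin.snoc_castSucc, Fin.snoc_last]
      positivity
  linarith

end Pool.Agent.Work.MP_72ebf0_an
end

-- merged part: Pool.Agent.Work.MP_72ebf0_an.Primal
section
/-!
The pair graph argument.
-/

namespace Pool.Agent.Work.MP_72ebf0_an

open Finset

theorem not_surj_of_weight {A : Type} [Fintype A] [DecidableEq A] [CommRing A] {m : ℕ}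
    (hm : 0 < m) (g h : A → A) (π : (Fin (m + 1) → A) → A)
    (hπ : ∀ w w', (∀ j, j ≠ 0 → j ≠ Fin.last m → w j = w' j) → π w = π w')
    (ρ : A × A → ℝ) (hρ : ∀ l, 0 ≤ ρ l) (lam : ℝ)
    (hg : ∀ t, ∑ l : A × A, (if g l.1 - g l.2 = t then ρ l else 0) = lam)
    (hh : ∀ t, ∑ l : A × A, (if h l.1 - h l.2 = t then ρ l else 0) = lam)
    (x0 y y' : A) (h0 : 0 < ρ (x0, x0)) (h1 : 0 < ρ (y, y')) (hne : y ≠ y') (hy : h y = h y') :
    ¬ Function.Surjective (glob m fun w => π w + g (w 0) + h (w (Fin.last m))) := by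
  classical
  intro hs
  have : Inhabited A := ⟨0⟩
  obtain ⟨m, rfl⟩ : ∃ k, m = k + 1 := ⟨m - 1, by omega⟩
  set f : (Fin (m + 1 + 1) → A) → A := fun w => π w + g (w 0) + h (w (Fin.last (m + 1))) with hf
  let good : (Fin (m + 1 + 1) → A × A) → Prop := fun e =>
    f (fun j => (e j).1) = f (fun j => (e j).2)
  have hsn : ∀ (s : Fin (m + 1) → A × A) (l : A × A) (c : A × A → A),
      π (fun j => c (Fin.snoc (α := fun _ => A × A) s l j)) =
      π (fun j => c (Fin.snoc (α := fun _ => A × A) s 0 j)) := by
    intro s l c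
    refine hπ _ _ fun j _ hj => ?_
    rcases Fin.eq_castSucc_or_eq_last j with ⟨i, rfl⟩ | rfl
    · simp
    · exact absurd rfl hj
  have hcn : ∀ (s : Fin (m + 1) → A × A) (l : A × A) (c : A × A → A),
      π (fun j => c (Fin.cons (α := fun _ => A × A) l s j)) =
      π (fun j => c (Fin.cons (α := fun _ => A × A) 0 s j)) := by
    intro s l c
    refine hπ _ _ fun j hj _ => ?_
    rcases Fin.eq_zero_or_eq_succ j with rfl | ⟨i, rfl⟩
    · exact absurd rfl hj
    · simp
  have hsn0 : ∀ (s : Fin (m + 1) → A × A) (l : A × A),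
      Fin.snoc (α := fun _ => A × A) s l 0 = s 0 := fun s l => by
    rw [← Fin.castSucc_zero, Fin.snoc_castSucc]
  have hcn0 : ∀ (s : Fin (m + 1) → A × A) (l : A × A),
      Fin.cons (α := fun _ => A × A) l s (Fin.last (m + 1)) = s (Fin.last m) := fun s l => by
    rw [← Fin.succ_last, Fin.cons_succ]
  have key := flow_return (m := m + 1) good ρ hρ lam (fun s => ?_) (fun s => ?_) (x0, x0) (y, y')
    h0 h1 ?_
  · obtain ⟨n, hn, k, k1, k2, k3, k4⟩ := key
    have := no_diamond hs hn (fun i => (k i).1) (fun i => (k i).2)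
      (fun i hi => by simp [k1 i hi])
      (fun j hj => by have := congrFun k4 ⟨j, hj⟩; simp only at this; simp [← this])
      (fun t ht => k3 t ht)
    simp only [k2] at this
    exact hne this
  · rw [← hh (π (fun j => (Fin.snoc (α := fun _ => A × A) s 0 j).2) + g (s 0).2 -
      (π (fun j => (Fin.snoc (α := fun _ => A × A) s 0 j).1) + g (s 0).1))]
    refine sum_congr rfl fun l _ => if_congr ?_ rfl rfl
    simp only [good, hf, hsn s l Prod.fst, hsn s l Prod.snd, hsn0, Fin.snoc_last]
    constructor <;> intro H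
    · linear_combination H
    · linear_combination H
  · rw [← hg (π (fun j => (Fin.cons (α := fun _ => A × A) 0 s j).2) + h (s (Fin.last m)).2 -
      (π (fun j => (Fin.cons (α := fun _ => A × A) 0 s j).1) + h (s (Fin.last m)).1))]
    refine sum_congr rfl fun l _ => if_congr ?_ rfl rfl
    simp only [good, hf, hcn s l Prod.fst, hcn s l Prod.snd, hcn0, Fin.cons_zero]
    constructor <;> intro H
    · linear_combination H
    · linear_combination H
  · simp only [good, hf, hsn0, Fin.snoc_last, hy]
    congr 2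
    refine hπ _ _ fun j _ hj => ?_
    rcases Fin.eq_castSucc_or_eq_last j with ⟨i, rfl⟩ | rfl
    · simp
    · exact absurd rfl hj

/-- Reduction of the centred form of the automaton to the window `[l, r]`. -/
theorem reduce {A : Type} [AddCommGroup A] (ρ : ℕ) (l r : Fin (2 * ρ + 1)) (hlr : l < r)
    (g h : A → A) (π : (Fin (2 * ρ + 1) → A) → A)
    (hπ : ∀ x y, (∀ j, l < j → j < r → x j = y j) → π x = π y)
    (F : (ℤ → A) → ℤ → A)
    (hF : ∀ x i, F x i = π (fun j => x (i - ρ + (j : ℕ))) + g (x (i - ρ + (l : ℕ))) +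
      h (x (i - ρ + (r : ℕ))))
    (hs : Function.Surjective F) :
    Function.Surjective (glob ((r : ℕ) - l) fun w =>
      π (fun j => if hj : (l : ℕ) ≤ j ∧ (j : ℕ) ≤ r then w ⟨j - l, by omega⟩ else 0) + g (w 0) +
        h (w (Fin.last _))) := by
  intro y
  obtain ⟨x, hx⟩ := hs fun i => y (i - ρ + (l : ℕ))
  refine ⟨x, funext fun k => ?_⟩
  have h1 := congrFun hx (k + ρ - (l : ℕ))
  rw [hF] at h1
  have hlr' : (l : ℕ) < r := hlr
  have e0 : k + ρ - (l : ℕ) - ρ + (l : ℕ) = k := by ring
  rw [e0] at h1
  rw [← h1]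
  simp only [glob]
  congr 2
  · refine hπ _ _ fun j h2 h3 => ?_
    have h2' : (l : ℕ) < j := h2
    have h3' : (j : ℕ) < r := h3
    rw [dif_pos ⟨h2'.le, h3'.le⟩]
    congr 1
    push_cast [Nat.cast_sub h2'.le]; ring
  · simp
  · congr 1
    simp only [Fin.val_last]
    push_cast [Nat.cast_sub hlr'.le]; ring

end Pool.Agent.Work.MP_72ebf0_an
end
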